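import Pool.Agent.H4.UC.Kern

/-!
# The inequality near the edges `x = 0` and at the corner `(1,1)`
-/

open Finset Real

namespace Pool.Agent.H4.UC

/-- the coupling with `k = 1/2` -/
noncomputable def gg (x y : ℝ) : ℝ := cop (1 / 2) x y

lemma gg_eq (x y : ℝ) : gg x y = x * y * (1 + (1 - x) * (1 - y) / 2) := by
  unfold gg cop; ring

lemma binEntropy_ge {g : ℝ} (h0 : 0 < g) (h1 : g < 1) :
    g * (-log g) + g * (1 - g) ≤ binEntropy g := by
  rw [binEntropy_log]
  have h2 : log (1 - g) ≤ -g := by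
    have := log_le_sub_one_of_pos (x := 1 - g) (by linarith)
    linarith
  have h3 : (1 - g) * log (1 - g) ≤ (1 - g) * (-g) := mul_le_mul_of_nonneg_left h2 (by linarith)
  linarith

lemma log_20 : (2.972 : ℝ) ≤ log 20 := by
  have h1 := log_two_gt_d9
  have h2 : log 20 = 4 * log 2 + log (5 / 4) := by
    have : (20 : ℝ) = 2 ^ 4 * (5 / 4) := by norm_num
    rw [this, log_mul (by norm_num) (by norm_num), log_pow]
    norm_num
  have h3 : (1 : ℝ) - (5 / 4)⁻¹ ≤ log (5 / 4) := one_sub_inv_le_log_of_pos (by norm_num)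
  norm_num at h3
  linarith

/-- region `x ≤ 1/20` -/
theorem edge_small {x y : ℝ} (hx : 0 ≤ x) (hx1 : x ≤ 1 / 20) (hy : 0 ≤ y) (hy1 : y ≤ 1) :
    D0 x y ≤ 23424 / 100000 * binEntropy (gg x y) := by
  rcases hx.eq_or_lt with rfl | hx
  · have : D0 0 y = 0 := by simp [D0]
    rw [this]
    have : gg 0 y = 0 := by simp [gg, cop]
    rw [this]; simp
  rcases hy.eq_or_lt with rfl | hy
  · have : D0 x 0 = 0 := by simp [D0]
    rw [this]
    have : gg x 0 = 0 := by simp [gg, cop]
    rw [this]; simp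
  refine (D0_le_small hx.le (by linarith) hy.le hy1).trans ?_
  set g := gg x y with hg
  have hge := gg_eq x y
  rw [← hg] at hge
  have hxy : 0 < x * y := mul_pos hx hy
  have hgpos : 0 < g := by
    rw [hge]
    have : 0 ≤ (1 - x) * (1 - y) := mul_nonneg (by linarith) (by linarith)
    positivity
  have hgx : g ≤ x := by
    rw [hge]
    have h1 : y * (1 + (1 - x) * (1 - y) / 2) ≤ 1 := by nlinarith [mul_nonneg hx.le (by linarith : (0:ℝ) ≤ 1 - y), mul_nonneg hy.le (by linarith : (0:ℝ) ≤ 1 - y)]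
    nlinarith
  have hb := binEntropy_ge hgpos (by linarith)
  have hl : log 20 ≤ -log g := by
    rw [← log_inv]
    apply log_le_log (by norm_num)
    rw [le_inv_comm₀ (by norm_num) hgpos]
    norm_num
    linarith
  have h20 := log_20
  have h2 : g * (3.922 : ℝ) ≤ binEntropy g := by
    refine le_trans ?_ hb
    have : g * 3.922 ≤ g * (-log g + (1 - g)) := by
      apply mul_le_mul_of_nonneg_left _ hgpos.le
      norm_num at hx1 h20 ⊢
      linarith
    linarith
  have h3 : x * y * (1 + 19 / 40 * (1 - y)) ≤ g := by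
    rw [hge]
    apply mul_le_mul_of_nonneg_left _ hxy.le
    nlinarith
  have h4 : x * y * (1 - y / 2) ≤ 23424 / 100000 * (3.922 * (x * y * (1 + 19 / 40 * (1 - y)))) := by
    have : 1 - y / 2 ≤ 23424 / 100000 * (3.922 * (1 + 19 / 40 * (1 - y))) := by
      norm_num
      linarith
    nlinarith
  nlinarith

lemma log_10 : (2.279 : ℝ) ≤ log 10 := by
  have h1 := log_two_gt_d9
  have h2 : log 10 = 3 * log 2 + log (5 / 4) := by
    have : (10 : ℝ) = 2 ^ 3 * (5 / 4) := by norm_num
    rw [this, log_mul (by norm_num) (by norm_num), log_pow]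
    norm_num
  have h3 : (1 : ℝ) - (5 / 4)⁻¹ ≤ log (5 / 4) := one_sub_inv_le_log_of_pos (by norm_num)
  norm_num at h3
  linarith

/-- region `x, y ≥ 19/20` -/
theorem edge_corner {x y : ℝ} (hx : 19 / 20 ≤ x) (hx1 : x ≤ 1) (hy : 19 / 20 ≤ y) (hy1 : y ≤ 1) :
    D0 x y ≤ 23424 / 100000 * binEntropy (gg x y) := by
  have h1 := D0_le_avg (x := x) (y := y) (by linarith) hx1 (by linarith) hy1
  have h2 := D0_diag_le_lin (x := x) (by linarith) hx1
  have h3 := D0_diag_le_lin (x := y) (by linarith) hy1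
  set s := (1 - x) + (1 - y) with hs
  have hs0 : 0 ≤ s := by rw [hs]; linarith
  have hs1 : s ≤ 1 / 10 := by rw [hs]; linarith
  have h4 : D0 x y ≤ log 2 * s := by rw [hs]; linarith
  refine h4.trans ?_
  set u := 1 - gg x y with hu
  have hue : u = s - (1 - x) * (1 - y) - x * y * ((1 - x) * (1 - y)) / 2 := by
    rw [hu, gg_eq, hs]; ring
  have hprod : 0 ≤ (1 - x) * (1 - y) := mul_nonneg (by linarith) (by linarith)
  have hprod2 : (1 - x) * (1 - y) ≤ s ^ 2 / 4 := by
    rw [hs]; nlinarith [sq_nonneg ((1 - x) - (1 - y))]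
  have hxy : 0 ≤ x * y := by positivity
  have hxy1 : x * y ≤ 1 := mul_le_one₀ hx1 (by linarith) hy1
  have hus : u ≤ s := by
    rw [hue]
    have := mul_nonneg hxy hprod
    linarith
  have hul : s * (1 - 3 / 8 * s) ≤ u := by
    rw [hue]
    have : x * y * ((1 - x) * (1 - y)) ≤ (1 - x) * (1 - y) := by nlinarith
    nlinarith
  rcases hs0.eq_or_lt with h0 | hspos
  · rw [← h0, mul_zero]
    have hg1 : gg x y ≤ 1 := by
      have : 0 ≤ u := le_trans (by rw [← h0]; norm_num) hul
      linarith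
    have hg0 : 0 ≤ gg x y := by rw [gg_eq]; positivity
    have := binEntropy_nonneg hg0 hg1
    positivity
  have hupos : 0 < u := lt_of_lt_of_le (mul_pos hspos (by linarith)) hul
  have hsym : binEntropy (gg x y) = binEntropy u := by
    rw [hu, binEntropy_one_sub]
  rw [hsym]
  have hb := binEntropy_ge hupos (by linarith)
  have hl : log 10 ≤ -log u := by
    rw [← log_inv]
    apply log_le_log (by norm_num)
    rw [le_inv_comm₀ (by norm_num) hupos]
    norm_num
    linarith
  have h10 := log_10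
  have h5 : u * (3.179 : ℝ) ≤ binEntropy u := by
    refine le_trans ?_ hb
    have : u * 3.179 ≤ u * (-log u + (1 - u)) := by
      apply mul_le_mul_of_nonneg_left _ hupos.le
      norm_num at hs1 h10 ⊢
      linarith
    linarith
  have hlog2 := log_two_lt_d9
  have h6 : s * (77 / 80) ≤ u := le_trans (by nlinarith) hul
  norm_num at hlog2 h5 ⊢
  nlinarith

end Pool.Agent.H4.UC
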