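import Pool.Agent.H4.UC.Edge

/-!
# Fixed point evaluation and its soundness
-/

open Finset Real

namespace Pool.Agent.H4.UC

/-- scale -/
def SS : ℕ := 10000000000

/-- rounded up division -/
def cdiv (a b : ℕ) : ℕ := (a + b - 1) / b

def psAux (u : ℕ) : ℕ → ℕ → ℕ → ℕ → ℕ
  | 0, n, p, acc => acc + cdiv p (2 * n)
  | (m + 1), n, p, acc =>
      psAux u m (n + 1) (cdiv (p * u) SS) (acc + cdiv p ((n + 1) * (2 * n + 1)))

/-- upper bound of `SS * psi z` with `N` terms when `SS * z^2 ≤ u` -/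
def psN (N u : ℕ) : ℕ := psAux u N 0 u 0

/-- upper bound of `SS * D0 (n/N) (n/N)` -/
def DU (T N n : ℕ) : ℕ := cdiv ((N - n) * psN T (cdiv (SS * n * n) (N * N))) N

/-- numerator of `gg (n/N) (m/N)` over `2 N^4` -/
def gN (N n m : ℕ) : ℕ := n * m * (2 * N * N + (N - n) * (N - m))

def qN (N n m : ℕ) : ℕ := (N ^ 4 - gN N n m) + (gN N n m - N ^ 4)

/-- lower bound of `SS * h (gg (n/N) (m/N))` -/
def wN (N n m : ℕ) : ℕ :=
  6931471803 - cdiv (psN 7 (cdiv (SS * qN N n m * qN N n m) (N ^ 8))) 2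

def boxOK (N i j ci cj : ℕ) : Bool :=
  Nat.ble (ci * cj * SS) ((23424 * min (wN N i j) (wN N (i + 1) (j + 1))) ^ 2)

def cellOK (T N i c : ℕ) : Bool :=
  bif Nat.ble ((i + 1) * 25) (24 * N) then
    Nat.ble (DU T N i + cdiv SS (N * N)) c && Nat.ble (DU T N (i + 1) + cdiv SS (N * N)) c
  else Nat.ble (cdiv (13862943616 * (N - i)) N) c

def tabOK (T N : ℕ) : ℕ → List ℕ → Bool
  | _, [] => true
  | i, (c :: L) => cellOK T N i c && tabOK T N (i + 1) L

def rowOK (N i ci ilo ihi : ℕ) : ℕ → List ℕ → Bool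
  | _, [] => true
  | j, (c :: L) => ((Nat.ble ilo i && Nat.ble (j + 1) ihi) || boxOK N i j ci c) &&
      rowOK N i ci ilo ihi (j + 1) L

def gridOK (N ilo ihi imax : ℕ) : ℕ → List ℕ → Bool
  | _, [] => true
  | i, (c :: L) => (Nat.ble imax i || rowOK N i c ilo ihi i (c :: L)) &&
      gridOK N ilo ihi imax (i + 1) L

/-! ## soundness -/

lemma SS_pos : (0 : ℝ) < (SS : ℝ) := by norm_num [SS]

lemma le_cdiv (a : ℕ) {b : ℕ} (hb : 0 < b) : (a : ℝ) / b ≤ cdiv a b := by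
  have hb' : (0 : ℝ) < b := by exact_mod_cast hb
  rw [div_le_iff₀ hb']
  have h : a ≤ cdiv a b * b := by
    unfold cdiv
    have h1 := Nat.div_add_mod (a + b - 1) b
    have h2 := Nat.mod_lt (a + b - 1) hb
    have h3 : (a + b - 1) / b * b = b * ((a + b - 1) / b) := Nat.mul_comm _ _
    omega
  exact_mod_cast h

lemma psAux_ge {U : ℝ} (hU : 0 ≤ U) {u : ℕ} (hu : SS * U ≤ u) : ∀ (m n p acc : ℕ),
    SS * U ^ (n + 1) ≤ p → 0 < n + m →
    SS * ((∑ i ∈ range m, U ^ (n + i + 1) / ((((n + i : ℕ) : ℝ) + 1) * (2 * ((n + i : ℕ) : ℝ) + 1)))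
      + U ^ (n + m + 1) / (2 * ((n + m : ℕ) : ℝ))) + acc ≤ psAux u m n p acc := by
  intro m
  induction m with
  | zero =>
    intro n p acc hp hn
    simp only [psAux, Finset.range_zero, Finset.sum_empty, zero_add, add_zero]
    have hn' : 0 < 2 * n := by omega
    have h1 := le_cdiv p hn'
    push_cast at h1 ⊢
    have hn2 : (0 : ℝ) < 2 * (n : ℝ) := by exact_mod_cast hn'
    have h2 : SS * (U ^ (n + 1) / (2 * (n : ℝ))) ≤ (p : ℝ) / (2 * (n : ℝ)) := by
      rw [← mul_div_assoc]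
      exact div_le_div_of_nonneg_right hp hn2.le
    linarith
  | succ m ih =>
    intro n p acc hp _
    simp only [psAux]
    have hden : 0 < (n + 1) * (2 * n + 1) := by positivity
    have h1 := le_cdiv p hden
    have h2 : SS * U ^ (n + 1 + 1) ≤ (cdiv (p * u) SS : ℕ) := by
      refine le_trans ?_ (le_cdiv (p * u) (b := SS) (by norm_num [SS]))
      rw [le_div_iff₀ SS_pos]
      push_cast
      calc (SS : ℝ) * U ^ (n + 1 + 1) * SS = (SS * U ^ (n + 1)) * (SS * U) := by ring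
        _ ≤ p * u := mul_le_mul hp hu (mul_nonneg SS_pos.le hU) (Nat.cast_nonneg _)
    have h3 := ih (n + 1) (cdiv (p * u) SS) (acc + cdiv p ((n + 1) * (2 * n + 1))) h2 (by omega)
    refine le_trans ?_ h3
    rw [Finset.sum_range_succ']
    have e1 : ∀ i : ℕ, n + 1 + i = n + (i + 1) := fun i => by omega
    simp only [e1]
    have e2 : n + 1 + m = n + (m + 1) := by omega
    simp only [add_zero]
    push_cast at h1 ⊢
    have h4 : (0 : ℝ) < ((n : ℝ) + 1) * (2 * (n : ℝ) + 1) := by positivity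
    have h5 : SS * (U ^ (n + 1) / (((n : ℝ) + 1) * (2 * (n : ℝ) + 1))) ≤
        (p : ℝ) / (((n : ℝ) + 1) * (2 * (n : ℝ) + 1)) := by
      rw [← mul_div_assoc]
      exact div_le_div_of_nonneg_right hp h4.le
    linarith

lemma psN_ge {z : ℝ} (hz : |z| < 1) {u N : ℕ} (hN : 0 < N) (hu : SS * z ^ 2 ≤ u) :
    SS * psi z ≤ psN N u := by
  have h := psAux_ge (sq_nonneg z) hu N 0 u 0 (by simpa using hu) (by omega)
  have h2 := psi_le hz hN
  have h3 := mul_le_mul_of_nonneg_left h2 SS_pos.le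
  refine h3.trans (le_trans (le_of_eq ?_) h)
  simp

lemma DU_ge {T N n : ℕ} (hT : 0 < T) (hn : n < N) :
    SS * D0 ((n : ℝ) / N) ((n : ℝ) / N) ≤ DU T N n := by
  have hN : (0 : ℝ) < N := by exact_mod_cast (by omega : 0 < N)
  have hnN : (n : ℝ) < N := by exact_mod_cast hn
  have hx0 : 0 ≤ (n : ℝ) / N := by positivity
  have hx1 : (n : ℝ) / N < 1 := by rw [div_lt_one hN]; exact hnN
  rw [D0_diag hx0 hx1.le]
  have hu : SS * ((n : ℝ) / N) ^ 2 ≤ (cdiv (SS * n * n) (N * N) : ℕ) := by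
    refine le_trans (le_of_eq ?_) (le_cdiv (SS * n * n) (b := N * N)
      (Nat.mul_pos (by omega) (by omega)))
    push_cast
    field_simp
  have h1 := psN_ge (z := (n : ℝ) / N) (by rw [abs_of_nonneg hx0]; exact hx1) hT hu
  unfold DU
  refine le_trans ?_ (le_cdiv _ (by omega : 0 < N))
  rw [le_div_iff₀ hN]
  rw [Nat.cast_mul, Nat.cast_sub hn.le]
  have e : (SS : ℝ) * ((1 - (n : ℝ) / N) * psi ((n : ℝ) / N)) * N =
      ((N : ℝ) - n) * (SS * psi ((n : ℝ) / N)) := by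
    field_simp
  rw [e]
  exact mul_le_mul_of_nonneg_left h1 (by linarith)

lemma gg_mono {x x' y y' : ℝ} (hx : 0 ≤ x) (hxx : x ≤ x') (hx1 : x' ≤ 1) (hy : 0 ≤ y)
    (hyy : y ≤ y') (hy1 : y' ≤ 1) : gg x y ≤ gg x' y' := by
  have step : ∀ a b c : ℝ, 0 ≤ a → a ≤ b → b ≤ 1 → 0 ≤ c → c ≤ 1 → gg a c ≤ gg b c := by
    intro a b c h0 h1 h2 h3 h4
    rw [gg_eq, gg_eq]
    have e : b * c * (1 + (1 - b) * (1 - c) / 2) - a * c * (1 + (1 - a) * (1 - c) / 2) =
        c * (b - a) * (1 + (1 - c) * (1 - a - b) / 2) := by ring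
    have h5 : 0 ≤ 1 + (1 - c) * (1 - a - b) / 2 := by nlinarith
    have h6 : 0 ≤ c * (b - a) := mul_nonneg h3 (by linarith)
    have := mul_nonneg h6 h5
    linarith
  have comm : ∀ a b : ℝ, gg a b = gg b a := by intro a b; rw [gg_eq, gg_eq]; ring
  have h1 := step x x' y hx hxx hx1 hy (by linarith)
  have h2 := step y y' x' hy hyy hy1 (by linarith) hx1
  rw [comm y x', comm y' x'] at h2
  linarith

lemma gg_pos {x y : ℝ} (hx : 0 < x) (hx1 : x ≤ 1) (hy : 0 < y) (hy1 : y ≤ 1) : 0 < gg x y := by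
  rw [gg_eq]
  have : 0 ≤ (1 - x) * (1 - y) := mul_nonneg (by linarith) (by linarith)
  positivity

lemma gg_le_left {x y : ℝ} (hx : 0 ≤ x) (hx1 : x ≤ 1) (hy : 0 ≤ y) (hy1 : y ≤ 1) :
    gg x y ≤ x := by
  have := sub_cop_nonneg (k := 1 / 2) (by norm_num) hx hx1 hy hy1
  unfold gg
  linarith

lemma wN_le {N n m : ℕ} (hn : 0 < n) (hnN : n < N) (hm : 0 < m) (hmN : m ≤ N) :
    (wN N n m : ℝ) ≤ SS * binEntropy (gg ((n : ℝ) / N) ((m : ℝ) / N)) := by
  have hN0 : 0 < N := by omega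
  have hN : (0 : ℝ) < N := by exact_mod_cast hN0
  have h1 : (0 : ℝ) < n := by exact_mod_cast hn
  have h2 : (0 : ℝ) < m := by exact_mod_cast hm
  have h3 : (n : ℝ) < N := by exact_mod_cast hnN
  have h4 : (m : ℝ) ≤ N := by exact_mod_cast hmN
  have hx0 : 0 < (n : ℝ) / N := by positivity
  have hx1 : (n : ℝ) / N < 1 := by rw [div_lt_one hN]; exact h3
  have hy0 : 0 < (m : ℝ) / N := by positivity
  have hy1 : (m : ℝ) / N ≤ 1 := by rw [div_le_one hN]; exact h4
  set g := gg ((n : ℝ) / N) ((m : ℝ) / N) with hg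
  have g0 : 0 < g := gg_pos hx0 hx1.le hy0 hy1
  have g1 : g < 1 := lt_of_le_of_lt (gg_le_left hx0.le hx1.le hy0.le hy1) hx1
  set z := 1 - 2 * g with hz
  have hgz : g = (1 - z) / 2 := by rw [hz]; ring
  have z0 : -1 < z := by rw [hz]; linarith
  have z1 : z < 1 := by rw [hz]; linarith
  have habs : |z| < 1 := abs_lt.2 ⟨z0, z1⟩
  have hent := binEntropy_psi z0 z1
  rw [← hgz] at hent
  -- the numerator
  have hgN : g = (gN N n m : ℝ) / (2 * (N : ℝ) ^ 4) := by
    rw [hg, gg_eq]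
    unfold gN
    push_cast [Nat.cast_sub hnN.le, Nat.cast_sub hmN]
    field_simp
  have hq : ((qN N n m : ℕ) : ℝ) ^ 2 = ((N : ℝ) ^ 4 - gN N n m) ^ 2 := by
    unfold qN
    rcases le_total (gN N n m) (N ^ 4) with h | h
    · rw [Nat.sub_eq_zero_of_le h, add_zero, Nat.cast_sub h]
      push_cast; ring
    · rw [Nat.sub_eq_zero_of_le h, zero_add, Nat.cast_sub h]
      push_cast; ring
  have hz2 : z ^ 2 = ((qN N n m : ℕ) : ℝ) ^ 2 / (N : ℝ) ^ 8 := by
    rw [hq, hz, hgN]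
    field_simp
  have hu : SS * z ^ 2 ≤ (cdiv (SS * qN N n m * qN N n m) (N ^ 8) : ℕ) := by
    refine le_trans (le_of_eq ?_) (le_cdiv _ (b := N ^ 8) (by positivity))
    rw [hz2]
    push_cast
    ring
  have hps := psN_ge habs (N := 7) (by norm_num) hu
  have hc := le_cdiv (psN 7 (cdiv (SS * qN N n m * qN N n m) (N ^ 8))) (b := 2) (by norm_num)
  unfold wN
  set c := cdiv (psN 7 (cdiv (SS * qN N n m * qN N n m) (N ^ 8))) 2 with hcdef
  rcases le_total c 6931471803 with h | h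
  · rw [Nat.cast_sub h]
    rw [hent]
    have hl := log_two_gt_d9
    have hS : (SS : ℝ) = 10000000000 := by norm_num [SS]
    have h5 : (6931471803 : ℝ) ≤ SS * log 2 := by
      rw [hS]; norm_num at hl ⊢; linarith
    push_cast at hc ⊢
    linarith
  · rw [Nat.sub_eq_zero_of_le h]
    have := binEntropy_nonneg g0.le g1.le
    push_cast
    exact mul_nonneg SS_pos.le this

/-- `c / SS` bounds `D0 x x` on the cell `i` of the grid `1/N` -/
def Good (N i c : ℕ) : Prop :=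
  ∀ x : ℝ, (i : ℝ) / N ≤ x → x ≤ ((i : ℝ) + 1) / N → D0 x x ≤ c / SS

lemma box_sound {N i j ci cj : ℕ} (hi : 0 < i) (hij : i ≤ j) (hiN : i + 1 < N) (hjN : j + 1 ≤ N)
    (gi : Good N i ci) (gj : Good N j cj) (h : boxOK N i j ci cj = true) {x y : ℝ}
    (hx : (i : ℝ) / N ≤ x) (hx1 : x ≤ ((i : ℝ) + 1) / N) (hy : (j : ℝ) / N ≤ y)
    (hy1 : y ≤ ((j : ℝ) + 1) / N) :
    D0 x y ≤ 23424 / 100000 * binEntropy (gg x y) := by
  have hN0 : 0 < N := by omega
  have hN : (0 : ℝ) < N := by exact_mod_cast hN0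
  have e1 : 0 < (i : ℝ) / N := by
    have : (0 : ℝ) < i := by exact_mod_cast hi
    positivity
  have e2 : ((i : ℝ) + 1) / N < 1 := by
    rw [div_lt_one hN]; exact_mod_cast hiN
  have e3 : 0 < (j : ℝ) / N := by
    have : (0 : ℝ) < j := by exact_mod_cast (by omega : 0 < j)
    positivity
  have e4 : ((j : ℝ) + 1) / N ≤ 1 := by
    rw [div_le_one hN]; exact_mod_cast hjN
  have hx0 : 0 < x := lt_of_lt_of_le e1 hx
  have hx1' : x < 1 := lt_of_le_of_lt hx1 e2
  have hy0 : 0 < y := lt_of_lt_of_le e3 hy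
  have hy1' : y ≤ 1 := hy1.trans e4
  have w1 := wN_le (N := N) (n := i) (m := j) hi (by omega) (by omega) (by omega)
  have w2 := wN_le (N := N) (n := i + 1) (m := j + 1) (by omega) hiN (by omega) hjN
  push_cast at w2
  set w := min (wN N i j) (wN N (i + 1) (j + 1)) with hw
  have hw1 : (w : ℝ) ≤ wN N i j := by exact_mod_cast min_le_left _ _
  have hw2 : (w : ℝ) ≤ wN N (i + 1) (j + 1) := by exact_mod_cast min_le_right _ _
  -- entropy lower bound
  have glo : gg ((i : ℝ) / N) ((j : ℝ) / N) ≤ gg x y := gg_mono e1.le hx hx1'.le e3.le hy hy1'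
  have ghi : gg x y ≤ gg (((i : ℝ) + 1) / N) (((j : ℝ) + 1) / N) :=
    gg_mono hx0.le hx1 e2.le hy0.le hy1 e4
  have m1 : gg ((i : ℝ) / N) ((j : ℝ) / N) ∈ Set.Icc (0 : ℝ) 1 := by
    have := gg_pos e1 (by linarith) e3 (by linarith)
    have := gg_le_left (x := (i : ℝ) / N) (y := (j : ℝ) / N) e1.le (by linarith) e3.le (by linarith)
    exact ⟨by linarith, by linarith⟩
  have m2 : gg (((i : ℝ) + 1) / N) (((j : ℝ) + 1) / N) ∈ Set.Icc (0 : ℝ) 1 := by
    have := gg_pos (x := ((i : ℝ) + 1) / N) (y := ((j : ℝ) + 1) / N) (by linarith) e2.le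
      (by linarith) e4
    have := gg_le_left (x := ((i : ℝ) + 1) / N) (y := ((j : ℝ) + 1) / N) (by linarith) e2.le
      (by linarith) e4
    exact ⟨by linarith, by linarith⟩
  have hmin := strictConcave_binEntropy.concaveOn.min_le_of_mem_Icc m1 m2 (Set.mem_Icc.2 ⟨glo, ghi⟩)
  have hent : (w : ℝ) ≤ SS * binEntropy (gg x y) := by
    have hS := SS_pos
    rcases min_le_iff.1 hmin with h' | h'
    · have := mul_le_mul_of_nonneg_left h' hS.le
      linarith
    · have := mul_le_mul_of_nonneg_left h' hS.le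
      linarith
  -- kernel upper bound
  have d1 := gi x hx hx1
  have d2 := gj y hy hy1
  have n1 := D0_diag_nonneg hx0.le hx1'.le
  have n2 := D0_diag_nonneg hy0.le hy1'
  have hsq := D0_sq_le hx0.le hx1'.le hy0.le hy1'
  have hprod : D0 x x * D0 y y ≤ (ci / SS) * (cj / SS) := mul_le_mul d1 d2 n2 (n1.trans d1)
  have hb : ci * cj * SS ≤ (23424 * w) ^ 2 := by
    unfold boxOK at h
    exact Nat.le_of_ble_eq_true h
  have hb' : (ci : ℝ) * cj * SS ≤ (23424 * (w : ℝ)) ^ 2 := by exact_mod_cast hb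
  have hS : (SS : ℝ) = 10000000000 := by norm_num [SS]
  have hw0 : (0 : ℝ) ≤ w := Nat.cast_nonneg _
  have hfin : D0 x y ≤ 23424 / 100000 * (w / SS) := by
    apply le_of_sq_le_sq _ (by have := SS_pos; positivity)
    refine hsq.trans (hprod.trans ?_)
    rw [hS] at hb' ⊢
    have e : (ci : ℝ) / 10000000000 * (cj / 10000000000) =
        (ci * cj * 10000000000) / 10000000000 ^ 3 := by ring
    rw [e, div_le_iff₀ (by norm_num)]
    refine hb'.trans (le_of_eq ?_)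
    ring
  refine hfin.trans ?_
  apply mul_le_mul_of_nonneg_left _ (by norm_num)
  rw [div_le_iff₀ SS_pos]
  linarith

end Pool.Agent.H4.UC
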