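import Pool.Agent.H4.UC.Rec

/-!
# The kernel `D0 x y = x h(y) + y h(x) - h(xy)`

`D0 x y = ∑ (x - x^(n+2)) (y - y^(n+2)) / ((n+1)(n+2))`, so it is positive semidefinite.
On the diagonal `D0 x x = (1 - x) ψ(x)` with `ψ(x) = (1+x) log (1+x) + (1-x) log (1-x)`, and
`h((1-z)/2) = log 2 - ψ(z)/2`.
-/

open Finset Real Filter Topology

namespace Pool.Agent.H4.UC

/-- `(1-t) log (1-t) + t` -/
noncomputable def fL (t : ℝ) : ℝ := (1 - t) * log (1 - t) + t

/-- `(1+z) log (1+z) + (1-z) log (1-z)` -/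
noncomputable def psi (z : ℝ) : ℝ := (1 + z) * log (1 + z) + (1 - z) * log (1 - z)

lemma hasSum_fL_lt {t : ℝ} (ht : |t| < 1) :
    HasSum (fun n : ℕ => t ^ (n + 2) / (((n : ℝ) + 1) * ((n : ℝ) + 2))) (fL t) := by
  have h := hasSum_pow_div_log_of_abs_lt_one ht
  have h1 := h.mul_left t
  have h2 := (hasSum_nat_add_iff' (f := fun n : ℕ => t ^ (n + 1) / ((n : ℝ) + 1)) 1).2 h
  have h3 := h1.sub h2
  have e1 : (fun n : ℕ => t ^ (n + 2) / (((n : ℝ) + 1) * ((n : ℝ) + 2))) =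
      fun n : ℕ => t * (t ^ (n + 1) / ((n : ℝ) + 1)) - t ^ (n + 1 + 1) / (((n + 1 : ℕ) : ℝ) + 1) := by
    funext n
    have h4 : (n : ℝ) + 1 ≠ 0 := by positivity
    have h5 : (n : ℝ) + 2 ≠ 0 := by positivity
    have h6 : (n : ℝ) + 1 + 1 ≠ 0 := by positivity
    push_cast
    field_simp
    ring
  have e2 : fL t = t * -log (1 - t) - (-log (1 - t) - ∑ i ∈ range 1, t ^ (i + 1) / ((i : ℝ) + 1)) := by
    unfold fL
    simp
    ring
  rw [e1, e2]
  exact h3

lemma sum_fL_one (N : ℕ) :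
    ∑ n ∈ range N, (1 : ℝ) / (((n : ℝ) + 1) * ((n : ℝ) + 2)) = 1 - 1 / ((N : ℝ) + 1) := by
  induction N with
  | zero => simp
  | succ N ih =>
    rw [Finset.sum_range_succ, ih]
    push_cast
    field_simp
    ring

lemma hasSum_one : HasSum (fun n : ℕ => (1 : ℝ) / (((n : ℝ) + 1) * ((n : ℝ) + 2))) 1 := by
  rw [hasSum_iff_tendsto_nat_of_nonneg (fun n => by positivity)]
  simp only [sum_fL_one]
  have h := tendsto_one_div_add_atTop_nhds_zero_nat (𝕜 := ℝ)
  simpa using tendsto_const_nhds.sub h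

lemma hasSum_fL {t : ℝ} (h0 : 0 ≤ t) (h1 : t ≤ 1) :
    HasSum (fun n : ℕ => t ^ (n + 2) / (((n : ℝ) + 1) * ((n : ℝ) + 2))) (fL t) := by
  rcases h1.eq_or_lt with rfl | h1
  · have : fL 1 = 1 := by simp [fL]
    rw [this]
    simpa using hasSum_one
  · exact hasSum_fL_lt (by rw [abs_of_nonneg h0]; exact h1)

lemma binEntropy_log (x : ℝ) : binEntropy x = -(x * log x) - (1 - x) * log (1 - x) := by
  unfold binEntropy
  rw [log_inv, log_inv]
  ring

lemma D0_eq {x y : ℝ} (hx : 0 ≤ x) (hy : 0 ≤ y) :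
    D0 x y = fL (x * y) - x * fL y - y * fL x + x * y := by
  unfold D0 fL
  rw [binEntropy_log, binEntropy_log, binEntropy_log]
  rcases hx.eq_or_lt with rfl | hx
  · simp
  rcases hy.eq_or_lt with rfl | hy
  · simp
  rw [log_mul hx.ne' hy.ne']
  ring

lemma hasSum_D0 {x y : ℝ} (hx : 0 ≤ x) (hx1 : x ≤ 1) (hy : 0 ≤ y) (hy1 : y ≤ 1) :
    HasSum (fun n : ℕ => (x - x ^ (n + 2)) * (y - y ^ (n + 2)) /
      (((n : ℝ) + 1) * ((n : ℝ) + 2))) (D0 x y) := by
  have h1 := hasSum_fL (mul_nonneg hx hy) (mul_le_one₀ hx1 hy hy1)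
  have h2 := (hasSum_fL hy hy1).mul_left x
  have h3 := (hasSum_fL hx hx1).mul_left y
  have h4 := hasSum_one.mul_left (x * y)
  have h := ((h1.sub h2).sub h3).add h4
  rw [D0_eq hx hy]
  rw [mul_one] at h
  refine h.congr_fun ?_
  intro n
  rw [mul_pow]
  ring

theorem psd_D0 : PSD D0 := by
  intro ι _ t c ht
  have h : HasSum (fun n : ℕ => ∑ i, ∑ j, c i * c j * ((t i - t i ^ (n + 2)) *
      (t j - t j ^ (n + 2)) / (((n : ℝ) + 1) * ((n : ℝ) + 2)))) (∑ i, ∑ j, c i * c j * D0 (t i) (t j)) := by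
    apply hasSum_sum
    intro i _
    apply hasSum_sum
    intro j _
    exact (hasSum_D0 (ht i).1 (ht i).2 (ht j).1 (ht j).2).mul_left _
  apply h.nonneg
  intro n
  have e : ∑ i, ∑ j, c i * c j * ((t i - t i ^ (n + 2)) *
      (t j - t j ^ (n + 2)) / (((n : ℝ) + 1) * ((n : ℝ) + 2))) =
      (∑ i, c i * (t i - t i ^ (n + 2))) ^ 2 / (((n : ℝ) + 1) * ((n : ℝ) + 2)) := by
    rw [sq, Finset.sum_mul_sum, Finset.sum_div]
    apply Finset.sum_congr rfl
    intro i _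
    rw [Finset.sum_div]
    apply Finset.sum_congr rfl
    intro j _
    ring
  rw [e]
  positivity

lemma D0_diag_nonneg {x : ℝ} (hx : 0 ≤ x) (hx1 : x ≤ 1) : 0 ≤ D0 x x := by
  apply (hasSum_D0 hx hx1 hx hx1).nonneg
  intro n
  have := mul_self_nonneg (x - x ^ (n + 2))
  positivity

lemma psd_two {x y : ℝ} (hx : 0 ≤ x) (hx1 : x ≤ 1) (hy : 0 ≤ y) (hy1 : y ≤ 1) (a b : ℝ) :
    0 ≤ a ^ 2 * D0 x x + 2 * a * b * D0 x y + b ^ 2 * D0 y y := by
  have h := psd_D0 Bool inferInstance (fun i => if i then y else x) (fun i => if i then b else a)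
    (by intro i; cases i <;> simp [hx, hx1, hy, hy1])
  simp only [Fintype.sum_bool, if_true, Bool.false_eq_true, if_false] at h
  have hs : D0 y x = D0 x y := by unfold D0; rw [mul_comm y x]; ring
  rw [hs] at h
  linarith

lemma D0_sq_le {x y : ℝ} (hx : 0 ≤ x) (hx1 : x ≤ 1) (hy : 0 ≤ y) (hy1 : y ≤ 1) :
    D0 x y ^ 2 ≤ D0 x x * D0 y y := by
  have h := psd_two hx hx1 hy hy1
  have h1 := discrim_le_zero (a := D0 x x) (b := 2 * D0 x y) (c := D0 y y) (fun t => by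
    have := h t 1
    nlinarith)
  unfold discrim at h1
  nlinarith

lemma D0_le_avg {x y : ℝ} (hx : 0 ≤ x) (hx1 : x ≤ 1) (hy : 0 ≤ y) (hy1 : y ≤ 1) :
    D0 x y ≤ (D0 x x + D0 y y) / 2 := by
  have := psd_two hx hx1 hy hy1 1 (-1)
  linarith

lemma fL_ge {t : ℝ} (h0 : 0 ≤ t) (h1 : t ≤ 1) : t ^ 2 / 2 ≤ fL t := by
  have h := hasSum_fL h0 h1
  have := le_hasSum h 0 (fun n _ => by positivity)
  simpa using this

lemma fL_mul_le {x y : ℝ} (hx : 0 ≤ x) (hx1 : x ≤ 1) (hy : 0 ≤ y) (hy1 : y ≤ 1) :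
    fL (x * y) ≤ y * fL x := by
  have h1 := hasSum_fL (mul_nonneg hx hy) (mul_le_one₀ hx1 hy hy1)
  have h2 := (hasSum_fL hx hx1).mul_left y
  refine hasSum_le ?_ h1 h2
  intro n
  rw [mul_pow, ← mul_div_assoc]
  apply div_le_div_of_nonneg_right _ (by positivity)
  have h3 : y ^ (n + 2) ≤ y := pow_le_of_le_one hy hy1 (by omega)
  have h4 : 0 ≤ x ^ (n + 2) := by positivity
  nlinarith

/-- crude bound for small `x` -/
lemma D0_le_small {x y : ℝ} (hx : 0 ≤ x) (hx1 : x ≤ 1) (hy : 0 ≤ y) (hy1 : y ≤ 1) :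
    D0 x y ≤ x * y * (1 - y / 2) := by
  rw [D0_eq hx hy]
  have h1 := fL_mul_le hx hx1 hy hy1
  have h2 := fL_ge hy hy1
  nlinarith

lemma D0_diag {x : ℝ} (hx : 0 ≤ x) (hx1 : x ≤ 1) : D0 x x = (1 - x) * psi x := by
  rw [D0_eq hx hx]
  unfold fL psi
  rcases hx1.eq_or_lt with rfl | hx1
  · simp
  have h1 : 1 - x * x = (1 - x) * (1 + x) := by ring
  rw [h1, log_mul (by linarith) (by linarith)]
  ring

lemma binEntropy_psi {z : ℝ} (h0 : -1 < z) (h1 : z < 1) :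
    binEntropy ((1 - z) / 2) = log 2 - psi z / 2 := by
  rw [binEntropy_log]
  unfold psi
  have e : 1 - (1 - z) / 2 = (1 + z) / 2 := by ring
  rw [e, log_div (by linarith) (by norm_num), log_div (by linarith) (by norm_num)]
  ring

lemma psi_neg (z : ℝ) : psi (-z) = psi z := by
  unfold psi
  rw [sub_neg_eq_add]
  have : 1 + -z = 1 - z := by ring
  rw [this]; ring

lemma hasSum_psi {z : ℝ} (hz : |z| < 1) :
    HasSum (fun n : ℕ => (z ^ 2) ^ (n + 1) / (((n : ℝ) + 1) * (2 * (n : ℝ) + 1))) (psi z) := by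
  have h1 := (hasSum_log_sub_log_of_abs_lt_one hz).mul_left z
  have hz2 : |z ^ 2| < 1 := by
    rw [abs_pow]
    exact pow_lt_one₀ (abs_nonneg _) hz (by norm_num)
  have h2 := hasSum_pow_div_log_of_abs_lt_one hz2
  have h := h1.sub h2
  obtain ⟨ha, hb⟩ := abs_lt.1 hz
  have e : z * (log (1 + z) - log (1 - z)) - -log (1 - z ^ 2) = psi z := by
    unfold psi
    have h3 : 1 - z ^ 2 = (1 + z) * (1 - z) := by ring
    rw [h3, log_mul (by linarith) (by linarith)]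
    ring
  rw [e] at h
  refine h.congr_fun ?_
  intro n
  have h4 : (n : ℝ) + 1 ≠ 0 := by positivity
  have h5 : 2 * (n : ℝ) + 1 ≠ 0 := by positivity
  rw [← pow_mul]
  have h6 : z * (2 * (1 / (2 * (n : ℝ) + 1)) * z ^ (2 * n + 1)) = 2 / (2 * (n : ℝ) + 1) * z ^ (2 * (n + 1)) := by
    have : z ^ (2 * (n + 1)) = z * z ^ (2 * n + 1) := by ring
    rw [this]; ring
  rw [h6]
  field_simp
  ring

lemma psi_nonneg {z : ℝ} (hz : |z| < 1) : 0 ≤ psi z :=
  (hasSum_psi hz).nonneg (fun n => by positivity)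

/-- partial sums with an explicit tail -/
lemma psi_le {z : ℝ} (hz : |z| < 1) {N : ℕ} (hN : 0 < N) :
    psi z ≤ (∑ n ∈ range N, (z ^ 2) ^ (n + 1) / (((n : ℝ) + 1) * (2 * (n : ℝ) + 1))) +
      (z ^ 2) ^ (N + 1) / (2 * N) := by
  set u := z ^ 2 with hu
  have u0 : 0 ≤ u := sq_nonneg z
  have u1 : u ≤ 1 := by
    have : |z| ^ 2 ≤ 1 := pow_le_one₀ (abs_nonneg _) hz.le
    rwa [sq_abs] at this
  have hNr : (0 : ℝ) < N := by exact_mod_cast hN
  have key : ∀ K : ℕ, ∑ n ∈ range (N + K), u ^ (n + 1) / (((n : ℝ) + 1) * (2 * (n : ℝ) + 1)) ≤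
      (∑ n ∈ range N, u ^ (n + 1) / (((n : ℝ) + 1) * (2 * (n : ℝ) + 1))) +
        u ^ (N + 1) * (1 / (2 * N) - 1 / (2 * ((N : ℝ) + K))) := by
    intro K
    induction K with
    | zero => simp
    | succ K ih =>
      rw [← add_assoc, Finset.sum_range_succ]
      have h1 : u ^ (N + K + 1) / ((((N + K : ℕ) : ℝ) + 1) * (2 * ((N + K : ℕ) : ℝ) + 1)) ≤
          u ^ (N + 1) * (1 / (2 * ((N : ℝ) + K)) - 1 / (2 * ((N : ℝ) + ((K + 1 : ℕ) : ℝ)))) := by
        have h2 : u ^ (N + K + 1) ≤ u ^ (N + 1) := pow_le_pow_of_le_one u0 u1 (by omega)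
        have h3 : (0 : ℝ) < N + K := by positivity
        push_cast
        have h4 : (1 : ℝ) / (2 * ((N : ℝ) + K)) - 1 / (2 * ((N : ℝ) + (K + 1))) =
            1 / (2 * ((N : ℝ) + K) * ((N : ℝ) + K + 1)) := by
          field_simp
          ring
        rw [h4, mul_one_div]
        apply div_le_div₀ (by positivity) h2 (by positivity)
        nlinarith
      have : (N : ℝ) + ((K + 1 : ℕ) : ℝ) = (N : ℝ) + K + 1 := by push_cast; ring
      linarith
  have hlim := (hasSum_psi hz).tendsto_sum_nat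
  have hlim2 := hlim.comp (tendsto_add_atTop_nat N)
  refine le_of_tendsto' hlim2 ?_
  intro K
  simp only [Function.comp_apply]
  rw [add_comm K N]
  refine (key K).trans ?_
  have h5 : (0 : ℝ) ≤ 1 / (2 * ((N : ℝ) + K)) := by positivity
  have h6 : 0 ≤ u ^ (N + 1) := by positivity
  have h7 : u ^ (N + 1) / (2 * N) = u ^ (N + 1) * (1 / (2 * N)) := by ring
  rw [h7]
  nlinarith

lemma psi_le_two_log {z : ℝ} (h0 : 0 ≤ z) (h1 : z ≤ 1) : psi z ≤ 2 * log 2 := by
  rcases h1.eq_or_lt with rfl | h1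
  · unfold psi; norm_num
  have h := binEntropy_psi (z := z) (by linarith) h1
  have h2 : 0 ≤ binEntropy ((1 - z) / 2) := binEntropy_nonneg (by linarith) (by linarith)
  linarith

lemma D0_diag_le_lin {x : ℝ} (hx : 0 ≤ x) (hx1 : x ≤ 1) : D0 x x ≤ 2 * log 2 * (1 - x) := by
  rw [D0_diag hx hx1]
  have := psi_le_two_log hx hx1
  nlinarith

/-! ## interpolation on a cell -/

lemma hasDerivAt_psi {x : ℝ} (h0 : -1 < x) (h1 : x < 1) :
    HasDerivAt psi (log (1 + x) - log (1 - x)) x := by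
  have a1 : HasDerivAt (fun t : ℝ => 1 + t) 1 x := by
    simpa using (hasDerivAt_id x).const_add 1
  have a2 : HasDerivAt (fun t : ℝ => 1 - t) (-1) x := by
    simpa using (hasDerivAt_id x).const_sub 1
  have b1 := a1.mul (a1.log (by linarith : (1 : ℝ) + x ≠ 0))
  have b2 := a2.mul (a2.log (by linarith : (1 : ℝ) - x ≠ 0))
  refine (b1.add b2).congr_deriv ?_
  have c1 : (1 : ℝ) + x ≠ 0 := by linarith
  have c2 : (1 : ℝ) - x ≠ 0 := by linarith
  field_simp
  ring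

lemma hasDerivAt_dpsi {x : ℝ} (h0 : -1 < x) (h1 : x < 1) :
    HasDerivAt (fun t => log (1 + t) - log (1 - t)) (1 / (1 + x) + 1 / (1 - x)) x := by
  have a1 : HasDerivAt (fun t : ℝ => 1 + t) 1 x := by
    simpa using (hasDerivAt_id x).const_add 1
  have a2 : HasDerivAt (fun t : ℝ => 1 - t) (-1) x := by
    simpa using (hasDerivAt_id x).const_sub 1
  have b1 := a1.log (by linarith : (1 : ℝ) + x ≠ 0)
  have b2 := a2.log (by linarith : (1 : ℝ) - x ≠ 0)
  refine (b1.sub b2).congr_deriv ?_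
  ring

/-- `(1-x) psi x + 4 x^2` -/
noncomputable def Ec (x : ℝ) : ℝ := (1 - x) * psi x + 4 * x ^ 2

noncomputable def Ec' (x : ℝ) : ℝ := -psi x + (1 - x) * (log (1 + x) - log (1 - x)) + 8 * x

noncomputable def Ec'' (x : ℝ) : ℝ :=
  -2 * (log (1 + x) - log (1 - x)) + (1 - x) * (1 / (1 + x) + 1 / (1 - x)) + 8

lemma hasDerivAt_Ec {x : ℝ} (h0 : -1 < x) (h1 : x < 1) : HasDerivAt Ec (Ec' x) x := by
  have a2 : HasDerivAt (fun t : ℝ => 1 - t) (-1) x := by
    simpa using (hasDerivAt_id x).const_sub 1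
  have b := a2.mul (hasDerivAt_psi h0 h1)
  have c := (hasDerivAt_pow 2 x).const_mul 4
  refine (b.add c).congr_deriv ?_
  unfold Ec'
  push_cast
  ring

lemma hasDerivAt_Ec' {x : ℝ} (h0 : -1 < x) (h1 : x < 1) : HasDerivAt Ec' (Ec'' x) x := by
  have a2 : HasDerivAt (fun t : ℝ => 1 - t) (-1) x := by
    simpa using (hasDerivAt_id x).const_sub 1
  have b := a2.mul (hasDerivAt_dpsi h0 h1)
  have c := (hasDerivAt_id x).const_mul 8
  refine (((hasDerivAt_psi h0 h1).neg.add b).add c).congr_deriv ?_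
  unfold Ec''
  ring

lemma log_49 : log 49 ≤ 4 := by
  have h : (49 : ℝ) ≤ exp 4 := by
    have h1 := exp_one_gt_d9
    have h2 : exp 4 = exp 1 ^ 4 := by rw [← exp_nat_mul]; norm_num
    rw [h2]
    calc (49 : ℝ) ≤ 2.7182818283 ^ 4 := by norm_num
      _ ≤ exp 1 ^ 4 := by gcongr
  calc log 49 ≤ log (exp 4) := log_le_log (by norm_num) h
    _ = 4 := log_exp 4

lemma Ec''_nonneg {x : ℝ} (h0 : 0 ≤ x) (h1 : x ≤ 24 / 25) : 0 ≤ Ec'' x := by
  unfold Ec''
  have h2 : log (1 + x) - log (1 - x) ≤ 4 := by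
    rw [← log_div (by linarith) (by linarith)]
    refine le_trans (log_le_log (div_pos (by linarith) (by linarith)) ?_) log_49
    rw [div_le_iff₀ (by linarith)]
    linarith
  have h3 : 0 ≤ (1 - x) * (1 / (1 + x) + 1 / (1 - x)) := by
    have : 0 < 1 - x := by linarith
    have : 0 < 1 + x := by linarith
    positivity
  linarith

lemma convexOn_Ec : ConvexOn ℝ (Set.Icc 0 (24 / 25)) Ec := by
  refine convexOn_of_hasDerivWithinAt2_nonneg (f' := Ec') (f'' := Ec'') (convex_Icc _ _) ?_ ?_ ?_ ?_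
  · intro x hx
    exact (hasDerivAt_Ec (by linarith [hx.1]) (by linarith [hx.2])).continuousAt.continuousWithinAt
  · intro x hx
    rw [interior_Icc] at hx
    exact (hasDerivAt_Ec (by linarith [hx.1]) (by linarith [hx.2])).hasDerivWithinAt
  · intro x hx
    rw [interior_Icc] at hx
    exact (hasDerivAt_Ec' (by linarith [hx.1]) (by linarith [hx.2])).hasDerivWithinAt
  · intro x hx
    rw [interior_Icc] at hx
    exact Ec''_nonneg hx.1.le hx.2.le

lemma D0_diag_cell {a b x m : ℝ} (ha : 0 ≤ a) (hab : a < b) (hb : b ≤ 24 / 25) (hx : a ≤ x)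
    (hxb : x ≤ b) (hma : D0 a a ≤ m) (hmb : D0 b b ≤ m) : D0 x x ≤ m + (b - a) ^ 2 := by
  have hba : 0 < b - a := by linarith
  have m1 : a ∈ Set.Icc (0 : ℝ) (24 / 25) := ⟨ha, by linarith⟩
  have m2 : b ∈ Set.Icc (0 : ℝ) (24 / 25) := ⟨by linarith, hb⟩
  have m3 : 0 ≤ (b - x) / (b - a) := div_nonneg (by linarith) hba.le
  have m4 : 0 ≤ (x - a) / (b - a) := div_nonneg (by linarith) hba.le
  have m5 : (b - x) / (b - a) + (x - a) / (b - a) = 1 := by
    rw [← add_div, div_eq_one_iff_eq hba.ne']; ring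
  have h := convexOn_Ec.2 m1 m2 m3 m4 m5
  simp only [smul_eq_mul] at h
  have e : (b - x) / (b - a) * a + (x - a) / (b - a) * b = x := by
    field_simp
    ring
  rw [e] at h
  rw [D0_diag ha (by linarith)] at hma
  rw [D0_diag (by linarith) (by linarith)] at hmb
  rw [D0_diag (by linarith) (by linarith)]
  unfold Ec at h
  set s := (b - x) / (b - a) with hs
  set t := (x - a) / (b - a) with ht
  have hs0 : 0 ≤ s := div_nonneg (by linarith) hba.le
  have ht0 : 0 ≤ t := div_nonneg (by linarith) hba.le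
  have hst : s + t = 1 := by rw [hs, ht, ← add_div, div_eq_one_iff_eq hba.ne']; ring
  have h1 := mul_le_mul_of_nonneg_left hma hs0
  have h2 := mul_le_mul_of_nonneg_left hmb ht0
  have h3 : s * a ^ 2 + t * b ^ 2 - x ^ 2 = s * t * (b - a) ^ 2 := by
    rw [← e]
    have : s = 1 - t := by linarith
    rw [this]; ring
  have h4 : s * t ≤ 1 / 4 := by nlinarith [sq_nonneg (s - t)]
  have h5 : s * t * (b - a) ^ 2 ≤ 1 / 4 * (b - a) ^ 2 := by gcongr
  have h6 : s * m + t * m = m := by rw [← add_mul, hst, one_mul]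
  nlinarith

end Pool.Agent.H4.UC
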