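import Pool.Agent.H4.UC.Fix

/-!
# Soundness of the loops over the grids
-/

open Finset Real

namespace Pool.Agent.H4.UC

lemma cell_sound {T N i c : ℕ} (hT : 0 < T) (hiN : i + 1 ≤ N) (h : cellOK T N i c = true) :
    Good N i c := by
  have hN0 : 0 < N := by omega
  have hN : (0 : ℝ) < N := by exact_mod_cast hN0
  intro x hx hx1
  have hi0 : (0 : ℝ) ≤ i := Nat.cast_nonneg _
  have hiN' : (i : ℝ) + 1 ≤ N := by exact_mod_cast hiN
  unfold cellOK at h
  have hS := SS_pos
  rcases hb : Nat.ble ((i + 1) * 25) (24 * N) with _ | _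
  · rw [hb, cond_false] at h
    have h1 := Nat.le_of_ble_eq_true h
    have h2 := le_cdiv (13862943616 * (N - i)) hN0
    have h3 : (cdiv (13862943616 * (N - i)) N : ℝ) ≤ c := by exact_mod_cast h1
    rw [Nat.cast_mul, Nat.cast_sub (by omega)] at h2
    push_cast at h2
    have hx0 : 0 ≤ x := le_trans (by positivity) hx
    have hxle : x ≤ 1 := hx1.trans (by rw [div_le_one hN]; exact hiN')
    refine (D0_diag_le_lin hx0 hxle).trans ?_
    rw [le_div_iff₀ hS]
    have hl := log_two_lt_d9
    have h4 : 1 - x ≤ ((N : ℝ) - i) / N := by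
      have : ((N : ℝ) - i) / N = 1 - (i : ℝ) / N := by field_simp
      rw [this]; linarith
    have h5 : 2 * log 2 * SS ≤ 13862943616 := by
      have : (SS : ℝ) = 10000000000 := by norm_num [SS]
      rw [this]; norm_num at hl ⊢; linarith
    have h6 : 0 ≤ ((N : ℝ) - i) / N := by linarith
    calc 2 * log 2 * (1 - x) * SS = (2 * log 2 * SS) * (1 - x) := by ring
      _ ≤ 13862943616 * (((N : ℝ) - i) / N) := by
          apply mul_le_mul h5 h4 (by linarith) (by norm_num)
      _ = 13862943616 * ((N : ℝ) - i) / N := by ring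
      _ ≤ c := h2.trans h3
  · rw [hb, cond_true, Bool.and_eq_true] at h
    have h0 := Nat.le_of_ble_eq_true hb
    have h1 := Nat.le_of_ble_eq_true h.1
    have h2 := Nat.le_of_ble_eq_true h.2
    have h3 := le_cdiv SS (b := N * N) (Nat.mul_pos hN0 hN0)
    have hiN2 : i + 1 < N := by omega
    have d1 := DU_ge (T := T) (N := N) (n := i) hT (by omega)
    have d2 := DU_ge (T := T) (N := N) (n := i + 1) hT hiN2
    push_cast at d2 h3
    have h1' : (DU T N i : ℝ) + cdiv SS (N * N) ≤ c := by exact_mod_cast h1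
    have h2' : (DU T N (i + 1) : ℝ) + cdiv SS (N * N) ≤ c := by exact_mod_cast h2
    have hsp : ((i : ℝ) + 1) / N - (i : ℝ) / N = 1 / N := by ring
    have hN1 : (0 : ℝ) < 1 / N := by positivity
    have hb2 : ((i : ℝ) + 1) / N ≤ 24 / 25 := by
      rw [div_le_div_iff₀ hN (by norm_num)]
      exact_mod_cast h0
    have key := D0_diag_cell (a := (i : ℝ) / N) (b := ((i : ℝ) + 1) / N) (x := x)
      (m := (c : ℝ) / SS - 1 / N ^ 2) (by positivity) (by linarith) hb2 hx hx1
      (by
        rw [le_sub_iff_add_le, le_div_iff₀ hS]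
        have e : (D0 ((i : ℝ) / N) ((i : ℝ) / N) + 1 / (N : ℝ) ^ 2) * SS =
          SS * D0 ((i : ℝ) / N) ((i : ℝ) / N) + SS / ((N : ℝ) * N) := by
            field_simp
        rw [e]; linarith)
      (by
        rw [le_sub_iff_add_le, le_div_iff₀ hS]
        have e : (D0 (((i : ℝ) + 1) / N) (((i : ℝ) + 1) / N) + 1 / (N : ℝ) ^ 2) * SS =
          SS * D0 (((i : ℝ) + 1) / N) (((i : ℝ) + 1) / N) + SS / ((N : ℝ) * N) := by
            field_simp
        rw [e]; linarith)
    rw [hsp] at key
    have e : (c : ℝ) / SS - 1 / (N : ℝ) ^ 2 + (1 / (N : ℝ)) ^ 2 = c / SS := by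
      rw [div_pow, one_pow]; ring
    rw [e] at key
    exact key

/-- all entries of the table are bounds -/
def AllGood (N : ℕ) : ℕ → List ℕ → Prop
  | _, [] => True
  | i, (c :: L) => Good N i c ∧ AllGood N (i + 1) L

lemma tab_sound {T N : ℕ} (hT : 0 < T) : ∀ (L : List ℕ) (i : ℕ), i + L.length ≤ N →
    tabOK T N i L = true → AllGood N i L := by
  intro L
  induction L with
  | nil => intro i _ _; trivial
  | cons c L ih =>
    intro i hi h
    simp only [List.length_cons] at hi
    simp only [tabOK, Bool.and_eq_true] at h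
    exact ⟨cell_sound hT (by omega) h.1, ih (i + 1) (by omega) h.2⟩

lemma row_sound {N i ci ilo ihi : ℕ} (hi : 0 < i) (hiN : i + 1 < N) (gi : Good N i ci) :
    ∀ (L : List ℕ) (j : ℕ), i ≤ j → j + L.length ≤ N → AllGood N j L →
      rowOK N i ci ilo ihi j L = true → ∀ x y : ℝ, (i : ℝ) / N ≤ x → x ≤ ((i : ℝ) + 1) / N →
      (j : ℝ) / N ≤ y → y ≤ ((j + L.length : ℕ) : ℝ) / N → L ≠ [] →
      ((ilo : ℝ) / N ≤ x ∧ y ≤ (ihi : ℝ) / N) ∨ D0 x y ≤ 23424 / 100000 * binEntropy (gg x y) := by
  have hN0 : 0 < N := by omega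
  have hN : (0 : ℝ) < N := by exact_mod_cast hN0
  intro L
  induction L with
  | nil => intro j _ _ _ _ x y _ _ _ _ hne; exact absurd rfl hne
  | cons c L ih =>
    intro j hij hjN hg h x y hx hx1 hy hy1 _
    simp only [List.length_cons] at hjN hy1
    simp only [rowOK, Bool.and_eq_true, Bool.or_eq_true] at h
    by_cases hcell : y ≤ ((j : ℝ) + 1) / N
    · rcases h.1 with h1 | h1
      · left
        have h2 := Nat.le_of_ble_eq_true h1.1
        have h3 := Nat.le_of_ble_eq_true h1.2
        have h2' : (ilo : ℝ) ≤ i := by exact_mod_cast h2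
        have h3' : (j : ℝ) + 1 ≤ ihi := by exact_mod_cast h3
        constructor
        · exact (div_le_div_of_nonneg_right h2' hN.le).trans hx
        · exact hcell.trans (div_le_div_of_nonneg_right h3' hN.le)
      · right
        exact box_sound hi hij hiN (by omega) gi hg.1 h1 hx hx1 hy hcell
    · have hcell' := not_le.1 hcell
      by_cases hL : L = []
      · exfalso
        subst hL
        simp only [List.length_nil, zero_add] at hy1
        push_cast at hy1
        linarith
      · apply ih (j + 1) (by omega) (by omega) hg.2 h.2 x y hx hx1 (by push_cast; exact hcell'.le)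
          _ hL
        have e : j + 1 + L.length = j + (L.length + 1) := by omega
        rw [e]; exact hy1

lemma grid_sound {N ilo ihi imax : ℕ} : ∀ (L : List ℕ) (i : ℕ), 0 < i → i + L.length ≤ N →
    AllGood N i L → gridOK N ilo ihi imax i L = true → ∀ x y : ℝ, (i : ℝ) / N ≤ x → x ≤ y →
      y ≤ ((i + L.length : ℕ) : ℝ) / N → x < (imax : ℝ) / N →
      (∀ n : ℕ, (n : ℝ) / N ≤ x → x < (imax : ℝ) / N → n + 1 < N) → L ≠ [] →
      ((ilo : ℝ) / N ≤ x ∧ y ≤ (ihi : ℝ) / N) ∨ D0 x y ≤ 23424 / 100000 * binEntropy (gg x y) := by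
  intro L
  induction L with
  | nil => intro i _ _ _ _ x y _ _ _ _ _ hne; exact absurd rfl hne
  | cons c L ih =>
    intro i hi hiN hg h x y hx hxy hy1 hmax hlt _
    have hN0 : 0 < N := by simp only [List.length_cons] at hiN; omega
    have hN : (0 : ℝ) < N := by exact_mod_cast hN0
    simp only [gridOK, Bool.and_eq_true, Bool.or_eq_true] at h
    by_cases hcell : x ≤ ((i : ℝ) + 1) / N
    · rcases h.1 with h1 | h1
      · exfalso
        have h2 := Nat.le_of_ble_eq_true h1
        have h2' : (imax : ℝ) ≤ i := by exact_mod_cast h2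
        have h3 : (imax : ℝ) / N ≤ (i : ℝ) / N := div_le_div_of_nonneg_right h2' hN.le
        linarith
      · exact row_sound hi (hlt i hx hmax) hg.1 (c :: L) i le_rfl hiN hg h1 x y hx hcell
          (hx.trans hxy) hy1 (by simp)
    · have hcell' := not_le.1 hcell
      simp only [List.length_cons] at hiN hy1
      by_cases hL : L = []
      · exfalso
        subst hL
        simp only [List.length_nil, zero_add] at hy1
        push_cast at hy1
        linarith
      · apply ih (i + 1) (by omega) (by omega) hg.2 h.2 x y (by push_cast; exact hcell'.le) hxy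
          _ hmax hlt hL
        have e : i + 1 + L.length = i + (L.length + 1) := by omega
        rw [e]; exact hy1

end Pool.Agent.H4.UC
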