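import Pool.Agent.H4.UC.Tab

/-!
# The constant 0.38288
-/

open Finset Real

namespace Pool.Agent.H4.UC

lemma good1 : AllGood 100 5 t1 := tab_sound (T := 20) (by norm_num) t1 5 (by decide) t1_tab
lemma good2 : AllGood 400 240 t2 := tab_sound (T := 14) (by norm_num) t2 240 (by decide) t2_tab
lemma good3 : AllGood 1000 650 t3 := tab_sound (T := 14) (by norm_num) t3 650 (by decide) t3_tab
lemma good4 : AllGood 2000 1350 t4 := tab_sound (T := 14) (by norm_num) t4 1350 (by decide) t4_tab

lemma len1 : t1.length = 95 := by decide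
lemma len2 : t2.length = 72 := by decide
lemma len3 : t3.length = 80 := by decide
lemma len4 : t4.length = 60 := by decide

lemma fine {N lo hi : ℕ} (hN : 0 < N) (L : List ℕ) (hne : L ≠ []) (hlen : L.length = hi - lo)
    (hlo : 0 < lo) (hhi : lo ≤ hi) (hhN : hi + 1 < N) (hg : AllGood N lo L) {ilo ihi : ℕ}
    (hc : gridOK N ilo ihi N lo L = true)
    {x y : ℝ} (hx : (lo : ℝ) / N ≤ x) (hxy : x ≤ y) (hy : y ≤ (hi : ℝ) / N) :
    ((ilo : ℝ) / N ≤ x ∧ y ≤ (ihi : ℝ) / N) ∨ D0 x y ≤ 23424 / 100000 * binEntropy (gg x y) := by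
  have hN' : (0 : ℝ) < N := by exact_mod_cast hN
  have e : lo + L.length = hi := by omega
  have h1 : (hi : ℝ) + 1 < N := by exact_mod_cast hhN
  apply grid_sound L lo hlo (by omega) hg hc x y hx hxy (by rw [e]; exact hy) _ _ hne
  · have : (hi : ℝ) / N < N / N := by
      rw [div_lt_div_iff_of_pos_right hN']; linarith
    linarith
  · intro n hn _
    have h2 : (n : ℝ) / N ≤ (hi : ℝ) / N := by linarith
    rw [div_le_div_iff_of_pos_right hN'] at h2
    have : n ≤ hi := by exact_mod_cast h2
    omega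

theorem main_le {x y : ℝ} (hx : 0 ≤ x) (hxy : x ≤ y) (hy1 : y ≤ 1) :
    D0 x y ≤ 23424 / 100000 * binEntropy (gg x y) := by
  rcases le_total x (1 / 20) with h | h
  · exact edge_small hx h (hx.trans hxy) hy1
  rcases le_or_gt (19 / 20) x with h' | h'
  · exact edge_corner h' (hxy.trans hy1) (h'.trans hxy) hy1
  have g1 := grid_sound t1 5 (by norm_num) (by rw [len1]) good1 t1_grid x y
    (by push_cast; norm_num at h ⊢; linarith) hxy (by rw [len1]; push_cast; norm_num; linarith)
    (by push_cast; norm_num at h' ⊢; linarith)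
    (by
      intro n hn hlt
      have h1 : (n : ℝ) / ((100 : ℕ) : ℝ) < ((95 : ℕ) : ℝ) / ((100 : ℕ) : ℝ) := lt_of_le_of_lt hn hlt
      rw [div_lt_div_iff_of_pos_right (by norm_num)] at h1
      have : n < 95 := by exact_mod_cast h1
      omega)
    (by intro hh; have := len1; rw [hh] at this; simp at this)
  rcases g1 with ⟨a1, b1⟩ | g1
  swap
  · exact g1
  have g2 := fine (N := 400) (lo := 240) (hi := 312) (by norm_num) t2
    (by intro hh; have := len2; rw [hh] at this; simp at this) (by rw [len2]) (by norm_num)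
    (by norm_num) (by norm_num) good2 t2_grid (x := x) (y := y)
    (by push_cast at a1 ⊢; norm_num at a1 ⊢; linarith) hxy
    (by push_cast at b1 ⊢; norm_num at b1 ⊢; linarith)
  rcases g2 with ⟨a2, b2⟩ | g2
  swap
  · exact g2
  have g3 := fine (N := 1000) (lo := 650) (hi := 730) (by norm_num) t3
    (by intro hh; have := len3; rw [hh] at this; simp at this) (by rw [len3]) (by norm_num)
    (by norm_num) (by norm_num) good3 t3_grid (x := x) (y := y)
    (by push_cast at a2 ⊢; norm_num at a2 ⊢; linarith) hxy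
    (by push_cast at b2 ⊢; norm_num at b2 ⊢; linarith)
  rcases g3 with ⟨a3, b3⟩ | g3
  swap
  · exact g3
  have g4 := fine (N := 2000) (lo := 1350) (hi := 1410) (by norm_num) t4
    (by intro hh; have := len4; rw [hh] at this; simp at this) (by rw [len4]) (by norm_num)
    (by norm_num) (by norm_num) good4 t4_grid (x := x) (y := y)
    (by push_cast at a3 ⊢; norm_num at a3 ⊢; linarith) hxy
    (by push_cast at b3 ⊢; norm_num at b3 ⊢; linarith)
  rcases g4 with ⟨a4, b4⟩ | g4
  swap
  · exact g4
  exfalso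
  push_cast at a4 b4
  norm_num at a4 b4
  norm_num at h
  linarith

theorem main_ineq {x y : ℝ} (hx : 0 ≤ x) (hx1 : x ≤ 1) (hy : 0 ≤ y) (hy1 : y ≤ 1) :
    D0 x y ≤ (1 - 2 * (38288 / 100000)) * binEntropy (cop (1 / 2) x y) := by
  have e : (1 : ℝ) - 2 * (38288 / 100000) = 23424 / 100000 := by norm_num
  rw [e]
  rcases le_total x y with h | h
  · exact main_le hx h hy1
  · have h1 := main_le hy h hx1
    have h2 : D0 y x = D0 x y := by unfold D0; rw [mul_comm y x]; ring
    have h3 : gg y x = gg x y := by rw [gg_eq, gg_eq]; ring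
    rw [h2, h3] at h1
    exact h1

/-- every finite union-closed family with a nonempty member has an element in at least
`0.38288 |A|` members -/
theorem frequent {α : Type*} [DecidableEq α] {A : Finset (Finset α)}
    (hA : ∀ X ∈ A, ∀ Y ∈ A, X ∪ Y ∈ A) (hne : ∃ X ∈ A, X.Nonempty) :
    ∃ x, (38288 / 100000 : ℝ) * A.card ≤ (A.filter (fun X => x ∈ X)).card :=
  core psd_D0 (k := 1 / 2) (by norm_num) (by norm_num)
    (fun x y h0 h1 h2 h3 => main_ineq h0 h1 h2 h3) (by norm_num) hA hne

end Pool.Agent.H4.UC
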