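import Mathlib

/-!
# Union-closed families: the recursion of a sequential coupling

`pr x I` is the proportion of members of `I` missing `x`.  `cop k p q = p q (1 + k (1-p)(1-q))` is
the probability that both of two coupled bits vanish.  `R k F l I J` is the expected sum of
`F` along the coupled exposure of a random member of `I` and a random member of `J`.

* `R_le_log`: for `F = h (cop k p q)` the value is at most `log |I ⊻ J|`;
* `psd_R`: for a positive semidefinite kernel `D`, `R 0 D l I I ≤ R k D l I I`;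
* `R_zero_left`: for `k = 0` the sum `R 0 (p h(q))` factorises;
* `chain`: chain rule.
-/

open Finset Real
open scoped FinsetFamily

namespace Pool.Agent.H4.UC

variable {α : Type*} [DecidableEq α]

/-- members of `I` missing `x` -/
def d0 (x : α) (I : Finset (Finset α)) : Finset (Finset α) := I.filter (fun X => x ∉ X)

/-- members of `I` containing `x` -/
def d1 (x : α) (I : Finset (Finset α)) : Finset (Finset α) := I.filter (fun X => x ∈ X)

/-- proportion of members of `I` missing `x` -/
noncomputable def pr (x : α) (I : Finset (Finset α)) : ℝ := ((d0 x I).card : ℝ) / I.card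

/-- probability that both coupled bits are absent -/
noncomputable def cop (k p q : ℝ) : ℝ := p * q * (1 + k * (1 - p) * (1 - q))

/-- expected sum of `F` along the coupled exposure -/
noncomputable def R (k : ℝ) (F : ℝ → ℝ → ℝ) :
    List α → Finset (Finset α) → Finset (Finset α) → ℝ
  | [], _, _ => 0
  | (x :: l), I, J => F (pr x I) (pr x J)
      + cop k (pr x I) (pr x J) * R k F l (d0 x I) (d0 x J)
      + (pr x I - cop k (pr x I) (pr x J)) * R k F l (d0 x I) (d1 x J)
      + (pr x J - cop k (pr x I) (pr x J)) * R k F l (d1 x I) (d0 x J)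
      + (1 - pr x I - pr x J + cop k (pr x I) (pr x J)) * R k F l (d1 x I) (d1 x J)

/-- expected weighted sum of entropies -/
noncomputable def W : List α → (α → ℝ) → Finset (Finset α) → ℝ
  | [], _, _ => 0
  | (x :: l), w, J => w x * binEntropy (pr x J) + pr x J * W l w (d0 x J)
      + (1 - pr x J) * W l w (d1 x J)

/-! ## elementary facts -/

lemma card_add (x : α) (I : Finset (Finset α)) : (d0 x I).card + (d1 x I).card = I.card := by
  unfold d0 d1
  rw [add_comm]
  exact Finset.card_filter_add_card_filter_not (fun X => x ∈ X)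

lemma pr_nonneg (x : α) (I : Finset (Finset α)) : 0 ≤ pr x I := by
  unfold pr; positivity

lemma pr_le_one (x : α) (I : Finset (Finset α)) : pr x I ≤ 1 := by
  unfold pr
  rcases Nat.eq_zero_or_pos I.card with h | h
  · rw [h]; simp
  · rw [div_le_one (by exact_mod_cast h)]
    exact_mod_cast Finset.card_le_card (Finset.filter_subset _ _)

lemma one_sub_pr {x : α} {I : Finset (Finset α)} (hI : I.Nonempty) :
    1 - pr x I = ((d1 x I).card : ℝ) / I.card := by
  have h : (0 : ℝ) < I.card := by exact_mod_cast hI.card_pos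
  unfold pr
  rw [eq_div_iff h.ne', sub_mul, div_mul_cancel₀ _ h.ne', one_mul]
  have := card_add x I
  have h2 : ((d0 x I).card : ℝ) + (d1 x I).card = I.card := by exact_mod_cast this
  linarith

lemma d0_nonempty {x : α} {I : Finset (Finset α)} (h : pr x I ≠ 0) : (d0 x I).Nonempty := by
  rw [← Finset.card_pos]
  rcases Nat.eq_zero_or_pos (d0 x I).card with h0 | h0
  · exfalso; apply h; unfold pr; rw [h0]; simp
  · exact h0

lemma d1_nonempty {x : α} {I : Finset (Finset α)} (hI : I.Nonempty) (h : pr x I ≠ 1) :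
    (d1 x I).Nonempty := by
  rw [← Finset.card_pos]
  rcases Nat.eq_zero_or_pos (d1 x I).card with h0 | h0
  · exfalso
    apply h
    have := one_sub_pr (x := x) hI
    rw [h0] at this
    simp at this
    linarith
  · exact h0

lemma cop_nonneg {k p q : ℝ} (hk : 0 ≤ k) (hp : 0 ≤ p) (hp1 : p ≤ 1) (hq : 0 ≤ q) (hq1 : q ≤ 1) :
    0 ≤ cop k p q := by
  unfold cop
  have : 0 ≤ k * (1 - p) * (1 - q) := mul_nonneg (mul_nonneg hk (by linarith)) (by linarith)
  positivity

lemma sub_cop_eq (k p q : ℝ) : p - cop k p q = p * (1 - q) * (1 - k * (1 - p) * q) := by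
  unfold cop; ring

lemma sub_cop_eq' (k p q : ℝ) : q - cop k p q = q * (1 - p) * (1 - k * (1 - q) * p) := by
  unfold cop; ring

lemma one_sub_cop_eq (k p q : ℝ) : 1 - p - q + cop k p q = (1 - p) * (1 - q) * (1 + k * p * q) := by
  unfold cop; ring

lemma aux_le {k a b : ℝ} (hk1 : k ≤ 1) (ha : 0 ≤ a) (ha1 : a ≤ 1) (hb : 0 ≤ b)
    (hb1 : b ≤ 1) : 0 ≤ 1 - k * a * b := by
  have h1 : a * b ≤ 1 := mul_le_one₀ ha1 hb hb1
  have h2 : 0 ≤ a * b := mul_nonneg ha hb
  nlinarith

lemma sub_cop_nonneg {k p q : ℝ} (hk1 : k ≤ 1) (hp : 0 ≤ p) (hp1 : p ≤ 1)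
    (hq : 0 ≤ q) (hq1 : q ≤ 1) : 0 ≤ p - cop k p q := by
  rw [sub_cop_eq]
  have := aux_le (a := 1 - p) (b := q) hk1 (by linarith) (by linarith) hq hq1
  exact mul_nonneg (mul_nonneg hp (by linarith)) this

lemma sub_cop_nonneg' {k p q : ℝ} (hk1 : k ≤ 1) (hp : 0 ≤ p) (hp1 : p ≤ 1)
    (hq : 0 ≤ q) (hq1 : q ≤ 1) : 0 ≤ q - cop k p q := by
  rw [sub_cop_eq']
  have := aux_le (a := 1 - q) (b := p) hk1 (by linarith) (by linarith) hp hp1
  exact mul_nonneg (mul_nonneg hq (by linarith)) this

lemma one_sub_cop_nonneg {k p q : ℝ} (hk : 0 ≤ k) (hp : 0 ≤ p) (hp1 : p ≤ 1)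
    (hq : 0 ≤ q) (hq1 : q ≤ 1) : 0 ≤ 1 - p - q + cop k p q := by
  rw [one_sub_cop_eq]
  have : 0 ≤ k * p * q := by positivity
  exact mul_nonneg (mul_nonneg (by linarith) (by linarith)) (by linarith)

/-- Gibbs inequality for two classes. -/
lemma gibbs {a u v : ℝ} (ha : 0 ≤ a) (ha1 : a ≤ 1) (hu : 0 ≤ u) (hv : 0 ≤ v)
    (hau : a ≠ 0 → 0 < u) (hav : a ≠ 1 → 0 < v) :
    binEntropy a + a * log u + (1 - a) * log v ≤ log (u + v) := by
  rcases eq_or_ne a 0 with rfl | h0
  · have hv' : 0 < v := hav (by norm_num)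
    simp only [binEntropy_zero, zero_mul, zero_add, sub_zero, one_mul]
    exact log_le_log hv' (by linarith)
  rcases eq_or_ne a 1 with rfl | h1
  · have hu' : 0 < u := hau (by norm_num)
    simp only [binEntropy_one, zero_add, sub_self, zero_mul, add_zero, one_mul]
    exact log_le_log hu' (by linarith)
  have hu' := hau h0
  have hv' := hav h1
  have ha' : 0 < a := lt_of_le_of_ne ha (Ne.symm h0)
  have ha1' : 0 < 1 - a := by
    have := lt_of_le_of_ne ha1 h1
    linarith
  have hc := strictConcaveOn_log_Ioi.concaveOn.2 (Set.mem_Ioi.2 (div_pos hu' ha'))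
    (Set.mem_Ioi.2 (div_pos hv' ha1')) ha'.le ha1'.le (by ring)
  simp only [smul_eq_mul] at hc
  rw [mul_div_cancel₀ _ ha'.ne', mul_div_cancel₀ _ ha1'.ne', log_div hu'.ne' ha'.ne',
    log_div hv'.ne' ha1'.ne'] at hc
  unfold binEntropy
  rw [log_inv, log_inv]
  linarith

lemma R_le_log {k : ℝ} (hk : 0 ≤ k) (hk1 : k ≤ 1) (l : List α) :
    ∀ I J : Finset (Finset α), I.Nonempty → J.Nonempty →
      R k (fun p q => binEntropy (cop k p q)) l I J ≤ log (I ⊻ J).card := by
  induction l with
  | nil =>
    intro I J hI hJ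
    simp only [R]
    apply log_nonneg
    have : (I ⊻ J).Nonempty := hI.sups hJ
    exact_mod_cast this.card_pos
  | cons x l ih =>
    intro I J hI hJ
    simp only [R]
    set p := pr x I with hp
    set q := pr x J with hq
    have p0 : 0 ≤ p := pr_nonneg x I
    have p1 : p ≤ 1 := pr_le_one x I
    have q0 : 0 ≤ q := pr_nonneg x J
    have q1 : q ≤ 1 := pr_le_one x J
    set a := cop k p q with ha
    have a0 : 0 ≤ a := cop_nonneg hk p0 p1 q0 q1
    have b0 : 0 ≤ p - a := sub_cop_nonneg hk1 p0 p1 q0 q1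
    have c0 : 0 ≤ q - a := sub_cop_nonneg' hk1 p0 p1 q0 q1
    have e0 : 0 ≤ 1 - p - q + a := one_sub_cop_nonneg hk p0 p1 q0 q1
    set U0 := d0 x (I ⊻ J) with hU0
    set U1 := d1 x (I ⊻ J) with hU1
    have hcard : (U0.card : ℝ) + U1.card = (I ⊻ J).card := by
      exact_mod_cast card_add x (I ⊻ J)
    have s00 : d0 x I ⊻ d0 x J ⊆ U0 := by
      intro Z hZ
      rw [Finset.mem_sups] at hZ
      obtain ⟨X, hX, Y, hY, rfl⟩ := hZ
      simp only [d0, Finset.mem_filter] at hX hY
      simp only [hU0, d0, Finset.mem_filter, Finset.mem_sups]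
      exact ⟨⟨X, hX.1, Y, hY.1, rfl⟩, by simp [hX.2, hY.2]⟩
    have s01 : d0 x I ⊻ d1 x J ⊆ U1 := by
      intro Z hZ
      rw [Finset.mem_sups] at hZ
      obtain ⟨X, hX, Y, hY, rfl⟩ := hZ
      simp only [d0, d1, Finset.mem_filter] at hX hY
      simp only [hU1, d1, Finset.mem_filter, Finset.mem_sups]
      exact ⟨⟨X, hX.1, Y, hY.1, rfl⟩, by simp [hY.2]⟩
    have s10 : d1 x I ⊻ d0 x J ⊆ U1 := by
      intro Z hZ
      rw [Finset.mem_sups] at hZ
      obtain ⟨X, hX, Y, hY, rfl⟩ := hZ
      simp only [d0, d1, Finset.mem_filter] at hX hY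
      simp only [hU1, d1, Finset.mem_filter, Finset.mem_sups]
      exact ⟨⟨X, hX.1, Y, hY.1, rfl⟩, by simp [hX.2]⟩
    have s11 : d1 x I ⊻ d1 x J ⊆ U1 := by
      intro Z hZ
      rw [Finset.mem_sups] at hZ
      obtain ⟨X, hX, Y, hY, rfl⟩ := hZ
      simp only [d1, Finset.mem_filter] at hX hY
      simp only [hU1, d1, Finset.mem_filter, Finset.mem_sups]
      exact ⟨⟨X, hX.1, Y, hY.1, rfl⟩, by simp [hX.2]⟩
    -- generic term bound
    have key : ∀ (c : ℝ) (P Q U : Finset (Finset α)), 0 ≤ c → (c ≠ 0 → P.Nonempty ∧ Q.Nonempty) →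
        P ⊻ Q ⊆ U →
        c * R k (fun p q => binEntropy (cop k p q)) l P Q ≤ c * log U.card := by
      intro c P Q U hc hne hsub
      rcases eq_or_ne c 0 with rfl | hc0
      · simp
      obtain ⟨hP, hQ⟩ := hne hc0
      apply mul_le_mul_of_nonneg_left _ hc
      refine (ih P Q hP hQ).trans ?_
      apply log_le_log
      · exact_mod_cast (hP.sups hQ).card_pos
      · exact_mod_cast Finset.card_le_card hsub
    have ne00 : a ≠ 0 → (d0 x I).Nonempty ∧ (d0 x J).Nonempty := by
      intro h
      constructor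
      · apply d0_nonempty
        intro h0; apply h; rw [ha, hp, h0]; simp [cop]
      · apply d0_nonempty
        intro h0; apply h; rw [ha, hq, h0]; simp [cop]
    have ne01 : p - a ≠ 0 → (d0 x I).Nonempty ∧ (d1 x J).Nonempty := by
      intro h
      rw [ha, sub_cop_eq] at h
      constructor
      · apply d0_nonempty
        intro h0; apply h; rw [hp, h0]; ring
      · apply d1_nonempty hJ
        intro h0; apply h; rw [hq, h0]; ring
    have ne10 : q - a ≠ 0 → (d1 x I).Nonempty ∧ (d0 x J).Nonempty := by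
      intro h
      rw [ha, sub_cop_eq'] at h
      constructor
      · apply d1_nonempty hI
        intro h0; apply h; rw [hp, h0]; ring
      · apply d0_nonempty
        intro h0; apply h; rw [hq, h0]; ring
    have ne11 : 1 - p - q + a ≠ 0 → (d1 x I).Nonempty ∧ (d1 x J).Nonempty := by
      intro h
      rw [ha, one_sub_cop_eq] at h
      constructor
      · apply d1_nonempty hI
        intro h0; apply h; rw [hp, h0]; ring
      · apply d1_nonempty hJ
        intro h0; apply h; rw [hq, h0]; ring
    have k00 := key a _ _ U0 a0 ne00 s00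
    have k01 := key (p - a) _ _ U1 b0 ne01 s01
    have k10 := key (q - a) _ _ U1 c0 ne10 s10
    have k11 := key (1 - p - q + a) _ _ U1 e0 ne11 s11
    have hau : a ≠ 0 → (0 : ℝ) < U0.card := by
      intro h
      obtain ⟨h1, h2⟩ := ne00 h
      exact_mod_cast ((h1.sups h2).mono s00).card_pos
    have hav : a ≠ 1 → (0 : ℝ) < U1.card := by
      intro h
      by_contra hcon
      have hU1e : U1 = ∅ := by
        rw [← Finset.card_eq_zero]
        have h1 : (U1.card : ℝ) ≤ 0 := not_lt.1 hcon
        have h2 : U1.card ≤ 0 := by exact_mod_cast h1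
        omega
      have z01 : p - a = 0 := by
        by_contra h'
        obtain ⟨h1, h2⟩ := ne01 h'
        have := (h1.sups h2).mono s01
        rw [hU1e] at this
        exact Finset.not_nonempty_empty this
      have z10 : q - a = 0 := by
        by_contra h'
        obtain ⟨h1, h2⟩ := ne10 h'
        have := (h1.sups h2).mono s10
        rw [hU1e] at this
        exact Finset.not_nonempty_empty this
      have z11 : 1 - p - q + a = 0 := by
        by_contra h'
        obtain ⟨h1, h2⟩ := ne11 h'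
        have := (h1.sups h2).mono s11
        rw [hU1e] at this
        exact Finset.not_nonempty_empty this
      apply h
      linarith
    have hg := gibbs (u := U0.card) (v := U1.card) a0 (by linarith) (Nat.cast_nonneg _)
      (Nat.cast_nonneg _) hau hav
    rw [hcard] at hg
    linarith

/-! ## linearity and monotonicity -/

lemma R_mono {k : ℝ} (hk : 0 ≤ k) (hk1 : k ≤ 1) {F G : ℝ → ℝ → ℝ}
    (hFG : ∀ p q, 0 ≤ p → p ≤ 1 → 0 ≤ q → q ≤ 1 → F p q ≤ G p q) (l : List α) :
    ∀ I J : Finset (Finset α), R k F l I J ≤ R k G l I J := by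
  induction l with
  | nil => intro I J; simp [R]
  | cons x l ih =>
    intro I J
    simp only [R]
    have p0 := pr_nonneg x I
    have p1 := pr_le_one x I
    have q0 := pr_nonneg x J
    have q1 := pr_le_one x J
    have h0 := hFG _ _ p0 p1 q0 q1
    have h1 := mul_le_mul_of_nonneg_left (ih (d0 x I) (d0 x J)) (cop_nonneg hk p0 p1 q0 q1)
    have h2 := mul_le_mul_of_nonneg_left (ih (d0 x I) (d1 x J)) (sub_cop_nonneg hk1 p0 p1 q0 q1)
    have h3 := mul_le_mul_of_nonneg_left (ih (d1 x I) (d0 x J)) (sub_cop_nonneg' hk1 p0 p1 q0 q1)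
    have h4 := mul_le_mul_of_nonneg_left (ih (d1 x I) (d1 x J)) (one_sub_cop_nonneg hk p0 p1 q0 q1)
    linarith

lemma R_add (k : ℝ) (F G : ℝ → ℝ → ℝ) (l : List α) :
    ∀ I J : Finset (Finset α), R k (fun p q => F p q + G p q) l I J = R k F l I J + R k G l I J := by
  induction l with
  | nil => intro I J; simp [R]
  | cons x l ih =>
    intro I J
    simp only [R, ih]
    ring

lemma R_sub (k : ℝ) (F G : ℝ → ℝ → ℝ) (l : List α) :
    ∀ I J : Finset (Finset α), R k (fun p q => F p q - G p q) l I J = R k F l I J - R k G l I J := by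
  induction l with
  | nil => intro I J; simp [R]
  | cons x l ih =>
    intro I J
    simp only [R, ih]
    ring

lemma R_smul (k c : ℝ) (F : ℝ → ℝ → ℝ) (l : List α) :
    ∀ I J : Finset (Finset α), R k (fun p q => c * F p q) l I J = c * R k F l I J := by
  induction l with
  | nil => intro I J; simp [R]
  | cons x l ih =>
    intro I J
    simp only [R, ih]
    ring

lemma R_swap (k : ℝ) (F : ℝ → ℝ → ℝ) (l : List α) :
    ∀ I J : Finset (Finset α), R k (fun p q => F q p) l I J = R k F l J I := by
  induction l with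
  | nil => intro I J; simp [R]
  | cons x l ih =>
    intro I J
    simp only [R, ih]
    have h : cop k (pr x I) (pr x J) = cop k (pr x J) (pr x I) := by unfold cop; ring
    rw [h]
    ring

/-! ## the independent coupling -/

lemma pr_total (x y : α) (I : Finset (Finset α)) :
    pr x I * pr y (d0 x I) + (1 - pr x I) * pr y (d1 x I) = pr y I := by
  rcases I.eq_empty_or_nonempty with rfl | hI
  · simp [pr, d0, d1]
  rw [one_sub_pr hI]
  have hpos : (0 : ℝ) < I.card := by exact_mod_cast hI.card_pos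
  have e : ∀ K : Finset (Finset α), ((K.card : ℝ) / I.card) * pr y K = ((d0 y K).card : ℝ) / I.card := by
    intro K
    unfold pr
    rcases Nat.eq_zero_or_pos K.card with h | h
    · have hK : K = ∅ := Finset.card_eq_zero.1 h
      subst hK
      simp [d0]
    · have : (0 : ℝ) < K.card := by exact_mod_cast h
      field_simp
  have e0 := e (d0 x I)
  have e1 := e (d1 x I)
  have hp : pr x I = ((d0 x I).card : ℝ) / I.card := rfl
  rw [hp, e0, e1, ← add_div]
  unfold pr
  congr 1
  have : (d0 y (d0 x I)).card + (d0 y (d1 x I)).card = (d0 y I).card := by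
    have h := card_add x (d0 y I)
    have h1 : d0 y (d0 x I) = d0 x (d0 y I) := by
      unfold d0; rw [Finset.filter_filter, Finset.filter_filter]
      congr 1; funext X; simp [and_comm]
    have h2 : d0 y (d1 x I) = d1 x (d0 y I) := by
      unfold d0 d1; rw [Finset.filter_filter, Finset.filter_filter]
      congr 1; funext X; simp [and_comm]
    rw [h1, h2]; exact h
  exact_mod_cast this

lemma W_lin (l : List α) (a b : ℝ) (v w : α → ℝ) :
    ∀ J : Finset (Finset α), W l (fun x => a * v x + b * w x) J = a * W l v J + b * W l w J := by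
  induction l with
  | nil => intro J; simp [W]
  | cons x l ih =>
    intro J
    simp only [W, ih]
    ring

lemma R_zero_left (l : List α) :
    ∀ I J : Finset (Finset α),
      R 0 (fun p q => p * binEntropy q) l I J = W l (fun y => pr y I) J := by
  induction l with
  | nil => intro I J; simp [R, W]
  | cons x l ih =>
    intro I J
    simp only [R, W, ih]
    have hc : cop 0 (pr x I) (pr x J) = pr x I * pr x J := by unfold cop; ring
    rw [hc]
    have h0 : ∀ K : Finset (Finset α), pr x I * W l (fun y => pr y (d0 x I)) K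
        + (1 - pr x I) * W l (fun y => pr y (d1 x I)) K = W l (fun y => pr y I) K := by
      intro K
      rw [← W_lin]
      congr 1
      funext y
      exact pr_total x y I
    rw [← h0 (d0 x J), ← h0 (d1 x J)]
    ring

lemma W_nonneg (l : List α) (w : α → ℝ) (hw : ∀ x ∈ l, 0 ≤ w x) :
    ∀ J : Finset (Finset α), 0 ≤ W l w J := by
  induction l with
  | nil => intro J; simp [W]
  | cons x l ih =>
    intro J
    simp only [W]
    have h1 := ih (fun y hy => hw y (List.mem_cons_of_mem _ hy)) (d0 x J)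
    have h2 := ih (fun y hy => hw y (List.mem_cons_of_mem _ hy)) (d1 x J)
    have h3 := hw x List.mem_cons_self
    have h4 := binEntropy_nonneg (pr_nonneg x J) (pr_le_one x J)
    have h5 := pr_nonneg x J
    have h6 : 0 ≤ 1 - pr x J := by linarith [pr_le_one x J]
    positivity

lemma W_ge (l : List α) (w : α → ℝ) (w0 : ℝ) (hw : ∀ x ∈ l, w0 ≤ w x) (J : Finset (Finset α)) :
    w0 * W l (fun _ => 1) J ≤ W l w J := by
  have h := W_nonneg l (fun x => 1 * w x + (-w0) * 1) (fun x hx => by linarith [hw x hx]) J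
  rw [W_lin l 1 (-w0) w (fun _ => 1)] at h
  linarith

/-- the members of `J` agree outside `l` -/
def Agree (l : List α) (J : Finset (Finset α)) : Prop :=
  ∀ X ∈ J, ∀ Y ∈ J, ∀ x, x ∉ l → (x ∈ X ↔ x ∈ Y)

lemma Agree.d0 {x : α} {l : List α} {J : Finset (Finset α)} (h : Agree (x :: l) J) :
    Agree l (d0 x J) := by
  intro X hX Y hY y hy
  simp only [UC.d0, mem_filter] at hX hY
  by_cases hyx : y = x
  · subst hyx
    exact iff_of_false hX.2 hY.2
  · exact h X hX.1 Y hY.1 y (by simp [hyx, hy])

lemma Agree.d1 {x : α} {l : List α} {J : Finset (Finset α)} (h : Agree (x :: l) J) :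
    Agree l (d1 x J) := by
  intro X hX Y hY y hy
  simp only [UC.d1, mem_filter] at hX hY
  by_cases hyx : y = x
  · subst hyx
    exact iff_of_true hX.2 hY.2
  · exact h X hX.1 Y hY.1 y (by simp [hyx, hy])

omit [DecidableEq α] in
lemma Agree.card_le_one {J : Finset (Finset α)} (h : Agree ([] : List α) J) : J.card ≤ 1 := by
  rw [Finset.card_le_one]
  intro X hX Y hY
  ext x
  exact h X hX Y hY x (by simp)

lemma chain_step {a u v : ℝ} (hu : 0 ≤ u) (hv : 0 ≤ v) (huv : 0 < u + v) (ha : a = u / (u + v)) :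
    binEntropy a + a * log u + (1 - a) * log v = log (u + v) := by
  have h1 : 1 - a = v / (u + v) := by rw [ha]; field_simp; ring
  rcases hu.eq_or_lt with rfl | hu
  · have : a = 0 := by rw [ha]; simp
    subst this
    simp
  rcases hv.eq_or_lt with rfl | hv
  · have : a = 1 := by rw [ha]; simp [hu.ne']
    subst this
    simp
  unfold binEntropy
  rw [h1, ha, log_inv, log_inv, log_div hu.ne' huv.ne', log_div hv.ne' huv.ne']
  field_simp
  ring

/-- chain rule -/
lemma chain (l : List α) : ∀ J : Finset (Finset α), J.Nonempty → Agree l J →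
    W l (fun _ => 1) J = log J.card := by
  induction l with
  | nil =>
    intro J hJ h
    have h1 := h.card_le_one
    have h2 := hJ.card_pos
    have : J.card = 1 := le_antisymm h1 h2
    rw [this]
    simp [W]
  | cons x l ih =>
    intro J hJ h
    simp only [W, one_mul]
    have hc : ((UC.d0 x J).card : ℝ) + (UC.d1 x J).card = J.card := by exact_mod_cast card_add x J
    have hJpos : (0 : ℝ) < J.card := by exact_mod_cast hJ.card_pos
    have key : ∀ (c : ℝ) (K : Finset (Finset α)), (c ≠ 0 → K.Nonempty) → Agree l K →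
        c * W l (fun _ => 1) K = c * log K.card := by
      intro c K hne hK
      rcases eq_or_ne c 0 with rfl | hc0
      · simp
      rw [ih K (hne hc0) hK]
    rw [key (pr x J) (UC.d0 x J) (fun h' => d0_nonempty h') h.d0,
      key (1 - pr x J) (UC.d1 x J) (fun h' => d1_nonempty hJ (fun h'' => h' (by rw [h'']; ring))) h.d1]
    rw [chain_step (Nat.cast_nonneg _) (Nat.cast_nonneg _) (by rw [hc]; exact hJpos)
      (by rw [hc]; rfl), hc]

/-! ## positive semidefinite kernels -/

/-- positive semidefinite on `[0,1]` -/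
def PSD (D : ℝ → ℝ → ℝ) : Prop :=
  ∀ (ι : Type) (_ : Fintype ι) (t c : ι → ℝ), (∀ i, 0 ≤ t i ∧ t i ≤ 1) →
    0 ≤ ∑ i, ∑ j, c i * c j * D (t i) (t j)

/-- node after the bit `b` at `x` (`true` = present) -/
def nd (x : α) (b : Bool) (I : Finset (Finset α)) : Finset (Finset α) := if b then d1 x I else d0 x I

/-- mass of the bit -/
noncomputable def ms (p : ℝ) (b : Bool) : ℝ := if b then 1 - p else p

/-- score of the bit -/
noncomputable def sc (p : ℝ) (b : Bool) : ℝ := if b then -p else 1 - p

lemma R_cons (k : ℝ) (F : ℝ → ℝ → ℝ) (x : α) (l : List α) (I J : Finset (Finset α)) :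
    R k F (x :: l) I J = F (pr x I) (pr x J) + ∑ b : Bool, ∑ b' : Bool,
      ms (pr x I) b * ms (pr x J) b' * (1 + k * sc (pr x I) b * sc (pr x J) b') *
        R k F l (nd x b I) (nd x b' J) := by
  simp only [R, Fintype.sum_bool, ms, sc, nd, if_true, Bool.false_eq_true, if_false]
  unfold cop
  ring

lemma psd_zero {D : ℝ → ℝ → ℝ} (hD : PSD D) (l : List α) :
    ∀ (ι : Type) (_ : Fintype ι) (I : ι → Finset (Finset α)) (c : ι → ℝ),
      0 ≤ ∑ i, ∑ j, c i * c j * R 0 D l (I i) (I j) := by
  induction l with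
  | nil => intro ι _ I c; simp [R]
  | cons x l ih =>
    intro ι _ I c
    have h1 := hD ι inferInstance (fun i => pr x (I i)) c
      (fun i => ⟨pr_nonneg x _, pr_le_one x _⟩)
    have h2 := ih (ι × Bool) inferInstance (fun z => nd x z.2 (I z.1))
      (fun z => c z.1 * ms (pr x (I z.1)) z.2)
    have e : ∑ i, ∑ j, c i * c j * R 0 D (x :: l) (I i) (I j) =
        (∑ i, ∑ j, c i * c j * D (pr x (I i)) (pr x (I j))) +
        ∑ z : ι × Bool, ∑ z' : ι × Bool, c z.1 * ms (pr x (I z.1)) z.2 *
          (c z'.1 * ms (pr x (I z'.1)) z'.2) * R 0 D l (nd x z.2 (I z.1)) (nd x z'.2 (I z'.1)) := by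
      rw [Fintype.sum_prod_type, ← Finset.sum_add_distrib]
      apply Finset.sum_congr rfl
      intro i _
      simp only [Fintype.sum_bool, Fintype.sum_prod_type]
      simp only [← Finset.sum_add_distrib]
      apply Finset.sum_congr rfl
      intro j _
      rw [R_cons]
      simp only [Fintype.sum_bool]
      ring
    rw [e]
    exact add_nonneg h1 h2

lemma psd_le {D : ℝ → ℝ → ℝ} (hD : PSD D) {k : ℝ} (hk : 0 ≤ k) (l : List α) :
    ∀ (ι : Type) (_ : Fintype ι) (I : ι → Finset (Finset α)) (c : ι → ℝ),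
      ∑ i, ∑ j, c i * c j * R 0 D l (I i) (I j) ≤ ∑ i, ∑ j, c i * c j * R k D l (I i) (I j) := by
  induction l with
  | nil => intro ι _ I c; simp [R]
  | cons x l ih =>
    intro ι _ I c
    have h2 := ih (ι × Bool) inferInstance (fun z => nd x z.2 (I z.1))
      (fun z => c z.1 * ms (pr x (I z.1)) z.2)
    have h3 := ih (ι × Bool) inferInstance (fun z => nd x z.2 (I z.1))
      (fun z => c z.1 * ms (pr x (I z.1)) z.2 * sc (pr x (I z.1)) z.2)
    have h4 := psd_zero hD l (ι × Bool) inferInstance (fun z => nd x z.2 (I z.1))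
      (fun z => c z.1 * ms (pr x (I z.1)) z.2 * sc (pr x (I z.1)) z.2)
    have h5 := mul_nonneg hk (h4.trans h3)
    have e : ∀ k' : ℝ, ∑ i, ∑ j, c i * c j * R k' D (x :: l) (I i) (I j) =
        (∑ i, ∑ j, c i * c j * D (pr x (I i)) (pr x (I j))) +
        (∑ z : ι × Bool, ∑ z' : ι × Bool, c z.1 * ms (pr x (I z.1)) z.2 *
          (c z'.1 * ms (pr x (I z'.1)) z'.2) * R k' D l (nd x z.2 (I z.1)) (nd x z'.2 (I z'.1))) +
        k' * ∑ z : ι × Bool, ∑ z' : ι × Bool,
          c z.1 * ms (pr x (I z.1)) z.2 * sc (pr x (I z.1)) z.2 *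
          (c z'.1 * ms (pr x (I z'.1)) z'.2 * sc (pr x (I z'.1)) z'.2) *
          R k' D l (nd x z.2 (I z.1)) (nd x z'.2 (I z'.1)) := by
      intro k'
      rw [Finset.mul_sum, Fintype.sum_prod_type, Fintype.sum_prod_type, ← Finset.sum_add_distrib,
        ← Finset.sum_add_distrib]
      apply Finset.sum_congr rfl
      intro i _
      simp only [Fintype.sum_bool, Fintype.sum_prod_type, Finset.mul_sum]
      simp only [← Finset.sum_add_distrib]
      apply Finset.sum_congr rfl
      intro j _
      rw [R_cons]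
      simp only [Fintype.sum_bool]
      ring
    rw [e 0, e k]
    linarith

lemma psd_R {D : ℝ → ℝ → ℝ} (hD : PSD D) {k : ℝ} (hk : 0 ≤ k) (l : List α)
    (I : Finset (Finset α)) : R 0 D l I I ≤ R k D l I I := by
  have := psd_le hD hk l Unit inferInstance (fun _ => I) (fun _ => 1)
  simpa using this

/-- the kernel `x h(y) + y h(x) - h(xy)` -/
noncomputable def D0 (x y : ℝ) : ℝ := x * binEntropy y + y * binEntropy x - binEntropy (x * y)

/-- The abstract bound. -/
theorem core (hD : PSD D0) {k c : ℝ} (hk : 0 ≤ k) (hk1 : k ≤ 1)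
    (hC : ∀ x y, 0 ≤ x → x ≤ 1 → 0 ≤ y → y ≤ 1 →
      D0 x y ≤ (1 - 2 * c) * binEntropy (cop k x y))
    (hc : 2 * c ≤ 1)
    {A : Finset (Finset α)} (hA : ∀ X ∈ A, ∀ Y ∈ A, X ∪ Y ∈ A) (hne : ∃ X ∈ A, X.Nonempty) :
    ∃ x, c * A.card ≤ (A.filter (fun X => x ∈ X)).card := by
  obtain ⟨X0, hX0, x0, hx0⟩ := hne
  have hAne : A.Nonempty := ⟨X0, hX0⟩
  have hApos : (0 : ℝ) < A.card := by exact_mod_cast hAne.card_pos
  set S := A.sup id with hS
  have hx0S : x0 ∈ S := Finset.mem_sup.2 ⟨X0, hX0, hx0⟩
  by_contra hcon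
  push Not at hcon
  -- all proportions of absence exceed `1 - c`
  have hpr : ∀ x, 1 - c < pr x A := by
    intro x
    have h := hcon x
    have h1 := one_sub_pr (x := x) hAne
    have h2 : ((d1 x A).card : ℝ) / A.card < c := by
      rw [div_lt_iff₀ hApos]; exact h
    linarith
  rcases lt_or_ge 1 A.card with hcard | hcard
  swap
  · -- one member
    have hc1 : A.card = 1 := le_antisymm hcard hAne.card_pos
    have h := hcon x0
    have h1 : (A.filter (fun X => x0 ∈ X)).card = 1 := by
      apply le_antisymm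
      · rw [← hc1]; exact Finset.card_le_card (Finset.filter_subset _ _)
      · exact Finset.card_pos.2 ⟨X0, Finset.mem_filter.2 ⟨hX0, hx0⟩⟩
    rw [h1, hc1] at h
    push_cast at h
    linarith
  obtain ⟨x1, hx1, hmin⟩ := Finset.exists_min_image S (fun x => pr x A) ⟨x0, hx0S⟩
  set w0 := pr x1 A with hw0
  have hw0' : 1 - c < w0 := hpr x1
  set l := S.toList with hl
  have hag : Agree l A := by
    intro X hX Y hY x hx
    rw [hl, Finset.mem_toList] at hx
    have h1 : x ∉ X := fun h => hx (Finset.mem_sup.2 ⟨X, hX, h⟩)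
    have h2 : x ∉ Y := fun h => hx (Finset.mem_sup.2 ⟨Y, hY, h⟩)
    exact iff_of_false h1 h2
  have hsub : A ⊻ A ⊆ A := by
    intro Z hZ
    rw [Finset.mem_sups] at hZ
    obtain ⟨X, hX, Y, hY, rfl⟩ := hZ
    exact hA X hX Y hY
  have hL : (0 : ℝ) < log A.card := log_pos (by exact_mod_cast hcard)
  have hup : ∀ k', 0 ≤ k' → k' ≤ 1 →
      R k' (fun p q => binEntropy (cop k' p q)) l A A ≤ log A.card := by
    intro k' h0 h1
    refine (R_le_log h0 h1 l A A hAne hAne).trans ?_
    apply log_le_log
    · exact_mod_cast (hAne.sups hAne).card_pos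
    · exact_mod_cast Finset.card_le_card hsub
  -- the coupled bound
  have h1 : R k D0 l A A ≤ (1 - 2 * c) * log A.card := by
    refine (R_mono hk hk1 hC l A A).trans ?_
    rw [R_smul]
    exact mul_le_mul_of_nonneg_left (hup k hk hk1) (by linarith)
  have h2 : R 0 D0 l A A ≤ (1 - 2 * c) * log A.card := (psd_R hD hk l A).trans h1
  -- the independent bound
  have h3 := hup 0 le_rfl zero_le_one
  have e : (fun p q : ℝ => binEntropy (cop 0 p q)) =
      fun p q => (p * binEntropy q + q * binEntropy p) - D0 p q := by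
    funext p q
    unfold D0 cop
    have : p * q * (1 + 0 * (1 - p) * (1 - q)) = p * q := by ring
    rw [this]; ring
  rw [e, R_sub, R_add] at h3
  have h4 := R_zero_left l A A
  have h5 : R 0 (fun p q : ℝ => q * binEntropy p) l A A = W l (fun y => pr y A) A := by
    rw [← h4]
    exact R_swap 0 (fun p q => p * binEntropy q) l A A
  rw [h4, h5] at h3
  have h6 : w0 * log A.card ≤ W l (fun y => pr y A) A := by
    rw [← chain l A hAne hag]
    apply W_ge
    intro x hx
    rw [hl, Finset.mem_toList] at hx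
    exact hmin x hx
  nlinarith

end Pool.Agent.H4.UC
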