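import Pool.Agent.H4.UC.Sub

/-!
Small union-closed families: bounds for subfamilies `P` of a union-closed family with empty
intersection, and the consequences for frequencies of elements.
-/

set_option autoImplicit false

open Real Finset

namespace Pool.Agent.H4.UC.Sm

variable {α : Type*} [DecidableEq α]

/-- inclusion-minimal members of `P` -/
def Pmin (P : Finset (Finset α)) : Finset (Finset α) :=
  P.filter (fun Y => ∀ Z ∈ P, Z ⊆ Y → Z = Y)

lemma exists_Pmin (P : Finset (Finset α)) {X : Finset α} (hX : X ∈ P) :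
    ∃ Y ∈ Pmin P, Y ⊆ X := by
  have hne : (P.filter (fun Y => Y ⊆ X)).Nonempty :=
    ⟨X, by rw [mem_filter]; exact ⟨hX, subset_rfl⟩⟩
  obtain ⟨Y, hY, hmin⟩ := exists_min_image _ (fun Y => Y.card) hne
  rw [mem_filter] at hY
  refine ⟨Y, ?_, hY.2⟩
  unfold Pmin
  rw [mem_filter]
  refine ⟨hY.1, ?_⟩
  intro Z hZ hZY
  have := hmin Z (by rw [mem_filter]; exact ⟨hZ, hZY.trans hY.2⟩)
  exact eq_of_subset_of_card_le hZY this

lemma Pmin_mem {P : Finset (Finset α)} {Y : Finset α} (h : Y ∈ Pmin P) : Y ∈ P :=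
  (mem_filter.1 h).1

lemma Pmin_eq {P : Finset (Finset α)} {Y : Finset α} (h : Y ∈ Pmin P) {Z : Finset α}
    (hZ : Z ∈ P) (hZY : Z ⊆ Y) : Z = Y :=
  (mem_filter.1 h).2 Z hZ hZY

lemma card_filter_mem_add (I : Finset (Finset α)) (x : α) :
    ((I.filter (fun X => x ∈ X)).card : ℝ) + (I.filter (fun X => x ∉ X)).card = I.card := by
  rw [← Nat.cast_add]
  congr 1
  exact Finset.card_filter_add_card_filter_not (fun X => x ∈ X)

/-- Some element is missed by few members of `I`. -/
lemma exists_few {A I : Finset (Finset α)} (hA : ∀ X ∈ A, ∀ Y ∈ A, X ∪ Y ∈ A) (hIA : I ⊆ A)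
    (hI : 2 ≤ I.card) :
    ∃ x ∈ A.sup id, ((I.filter (fun X => x ∉ X)).card : ℝ) ≤
      tau * I.card * log A.card / log I.card := by
  have hIpos : (0:ℝ) < I.card := by
    have : 0 < I.card := by omega
    exact_mod_cast this
  have hlog : 0 < log (I.card : ℝ) := by
    apply Real.log_pos
    exact_mod_cast (by omega : 1 < I.card)
  have hU : (A.sup id).Nonempty := by
    rw [nonempty_iff_ne_empty]
    intro h
    have h1 : I ⊆ {∅} := by
      intro X hX
      rw [mem_singleton]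
      have h2 : X ⊆ A.sup id := by
        intro a ha
        exact mem_sup.2 ⟨X, hIA hX, ha⟩
      rw [h] at h2
      exact subset_empty.1 h2
    have h3 := card_le_card h1
    rw [card_singleton] at h3
    omega
  obtain ⟨x, hx, hmin⟩ := exists_min_image (A.sup id)
    (fun x => (I.filter (fun X => x ∉ X)).card) hU
  refine ⟨x, hx, ?_⟩
  have h1 := sub_bound (q := (I.filter (fun X => x ∉ X)).card / I.card) hA hIA
    (by rw [← card_pos]; omega) (by
      intro y hy
      rw [div_mul_cancel₀ _ hIpos.ne']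
      exact_mod_cast hmin y hy)
  rw [le_div_iff₀ hlog]
  have h3 := mul_le_mul_of_nonneg_left h1 hIpos.le
  calc ((I.filter (fun X => x ∉ X)).card : ℝ) * log I.card
      = I.card * ((I.filter (fun X => x ∉ X)).card / I.card * log I.card) := by
        field_simp
    _ ≤ I.card * (tau * log A.card) := h3
    _ = _ := by ring

/-- Logarithmic form. -/
theorem general_log {A P : Finset (Finset α)} (hA : ∀ X ∈ A, ∀ Y ∈ A, X ∪ Y ∈ A) (hPA : P ⊆ A)
    (hcap : ∀ x ∈ A.sup id, ∃ Y ∈ P, x ∉ Y) (h2 : P.card + 2 ≤ A.card) :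
    ∃ Y ∈ P, (A.card : ℝ) - 1 - tau * (A.card - P.card) * log A.card / log (A.card - P.card) ≤
      (A.filter (fun X => ¬ X ⊆ Y)).card := by
  have hIc : (A \ P).card = A.card - P.card := card_sdiff_of_subset hPA
  have hIr : ((A \ P).card : ℝ) = A.card - P.card := by
    rw [hIc, Nat.cast_sub (by omega)]
  obtain ⟨x, hx, hfew⟩ := exists_few hA (sdiff_subset : A \ P ⊆ A) (by rw [hIc]; omega)
  obtain ⟨Z, hZ, hxZ⟩ := hcap x hx
  obtain ⟨Y, hY, hYZ⟩ := exists_Pmin P hZ
  refine ⟨Y, Pmin_mem hY, ?_⟩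
  rw [hIr] at hfew
  have h3 := card_filter_mem_add (A \ P) x
  rw [hIr] at h3
  have h4 : ((A \ P).filter (fun X => x ∈ X)).card + (P.erase Y).card ≤
      (A.filter (fun X => ¬ X ⊆ Y)).card := by
    rw [← card_union_of_disjoint]
    · apply card_le_card
      intro X hX
      rw [mem_union, mem_filter, mem_sdiff, mem_erase] at hX
      rw [mem_filter]
      rcases hX with ⟨⟨h5, _⟩, h6⟩ | ⟨h5, h6⟩
      · exact ⟨h5, fun h => hxZ (hYZ (h h6))⟩
      · exact ⟨hPA h6, fun h => h5 (Pmin_eq hY h6 h)⟩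
    · rw [disjoint_left]
      intro X hX hX'
      rw [mem_filter, mem_sdiff] at hX
      exact hX.1.2 (mem_of_mem_erase hX')
  have hPpos : 1 ≤ P.card := card_pos.2 ⟨Y, Pmin_mem hY⟩
  rw [card_erase_of_mem (Pmin_mem hY)] at h4
  have h5 : (((A \ P).filter (fun X => x ∈ X)).card : ℝ) + (P.card - 1) ≤
      (A.filter (fun X => ¬ X ⊆ Y)).card := by
    have h6 : ((((A \ P).filter (fun X => x ∈ X)).card + (P.card - 1) : ℕ) : ℝ) ≤
      (A.filter (fun X => ¬ X ⊆ Y)).card := by exact_mod_cast h4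
    rw [Nat.cast_add, Nat.cast_sub hPpos] at h6
    simpa using h6
  linarith

/-- Exact form, valid for all sizes. -/
theorem general_half {A P : Finset (Finset α)} (hA : ∀ X ∈ A, ∀ Y ∈ A, X ∪ Y ∈ A) (hPA : P ⊆ A)
    (hcap : ∀ x ∈ A.sup id, ∃ Y ∈ P, x ∉ Y) (hP : P.Nonempty) :
    ∃ Y ∈ P, (1 - tau) * (A.card : ℝ) + P.card - 2 ≤
      (2 - tau) * (A.filter (fun X => ¬ X ⊆ Y)).card := by
  have ht0 : (0:ℝ) < tau := by linarith [lt_tau]
  have ht1 : tau < 1 := by linarith [tau_lt]
  obtain ⟨Z, hZ⟩ := hP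
  obtain ⟨Y, hY, -⟩ := exists_Pmin P hZ
  have hYP := Pmin_mem hY
  set D := A.filter (fun X => X ⊆ Y) with hD
  have hYD : Y ∈ D := by rw [hD, mem_filter]; exact ⟨hPA hYP, subset_rfl⟩
  have hDA : D ⊆ A := filter_subset _ _
  have hsum : (D.card : ℝ) + (A.filter (fun X => ¬ X ⊆ Y)).card = A.card := by
    rw [← Nat.cast_add]
    congr 1
    exact Finset.card_filter_add_card_filter_not (fun X => X ⊆ Y)
  have hDu : ∀ X ∈ D, ∀ X' ∈ D, X ∪ X' ∈ D := by
    intro X hX X' hX'
    rw [hD, mem_filter] at hX hX' ⊢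
    exact ⟨hA _ hX.1 _ hX'.1, union_subset hX.2 hX'.2⟩
  have hPc : (P.card : ℝ) ≤ A.card := by exact_mod_cast card_le_card hPA
  rcases Y.eq_empty_or_nonempty with hYe | hYne
  · refine ⟨Y, hYP, ?_⟩
    have h1 : D.card ≤ 1 := by
      rw [card_le_one]
      intro X hX X' hX'
      rw [hD, mem_filter, hYe, subset_empty] at hX hX'
      rw [hX.2, hX'.2]
    have h2 : (D.card : ℝ) ≤ 1 := by exact_mod_cast h1
    nlinarith
  · have hfew : ∃ x ∈ Y, ((D.filter (fun X => x ∉ X)).card : ℝ) ≤ tau * D.card := by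
      rcases le_or_gt 2 D.card with h2 | h2
      · obtain ⟨x, hx, h3⟩ := exists_few hDu (subset_rfl : D ⊆ D) h2
        refine ⟨x, ?_, ?_⟩
        · obtain ⟨X, hX, hxX⟩ := mem_sup.1 hx
          exact (mem_filter.1 hX).2 hxX
        · have hlog : 0 < log (D.card : ℝ) := by
            apply Real.log_pos
            exact_mod_cast (by omega : 1 < D.card)
          rwa [mul_div_assoc, div_self hlog.ne', mul_one] at h3
      · obtain ⟨x, hx⟩ := hYne
        refine ⟨x, hx, ?_⟩
        have h3 : D.filter (fun X => x ∉ X) = ∅ := by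
          rw [filter_eq_empty_iff]
          intro X hX
          have h4 : X = Y := card_le_one.1 (by omega : D.card ≤ 1) X hX Y hYD
          rw [h4]
          exact not_not.2 hx
        rw [h3, card_empty, Nat.cast_zero]
        positivity
    obtain ⟨x, hx, hfew⟩ := hfew
    obtain ⟨W, hW, hxW⟩ := hcap x (mem_sup.2 ⟨Y, hPA hYP, hx⟩)
    obtain ⟨Y', hY', hY'W⟩ := exists_Pmin P hW
    have hxY' : x ∉ Y' := fun h => hxW (hY'W h)
    have hne : Y' ≠ Y := fun h => hxY' (h ▸ hx)
    have h3 := card_filter_mem_add D x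
    have h4 : (D.filter (fun X => x ∈ X)).card + ((P.erase Y).erase Y').card ≤
        (A.filter (fun X => ¬ X ⊆ Y')).card := by
      rw [← card_union_of_disjoint]
      · apply card_le_card
        intro X hX
        rw [mem_union, mem_filter, mem_erase, mem_erase] at hX
        rw [mem_filter]
        rcases hX with ⟨h5, h6⟩ | ⟨h5, h6, h7⟩
        · exact ⟨hDA h5, fun h => hxY' (h h6)⟩
        · exact ⟨hPA h7, fun h => h5 (Pmin_eq hY' h7 h)⟩
      · rw [disjoint_left]
        intro X hX hX'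
        rw [mem_filter, hD, mem_filter] at hX
        rw [mem_erase, mem_erase] at hX'
        exact hX'.2.1 (Pmin_eq hY hX'.2.2 hX.1.2)
    have h5 : P.card ≤ ((P.erase Y).erase Y').card + 2 := by
      rw [card_erase_of_mem (mem_erase.2 ⟨hne, Pmin_mem hY'⟩), card_erase_of_mem hYP]
      omega
    have h6 : ((D.filter (fun X => x ∈ X)).card : ℝ) + P.card - 2 ≤
        (A.filter (fun X => ¬ X ⊆ Y')).card := by
      have h7 : (D.filter (fun X => x ∈ X)).card + P.card ≤
        (A.filter (fun X => ¬ X ⊆ Y')).card + 2 := by omega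
      have h8 : ((D.filter (fun X => x ∈ X)).card : ℝ) + P.card ≤
        (A.filter (fun X => ¬ X ⊆ Y')).card + 2 := by exact_mod_cast h7
      linarith
    -- the larger of the two
    rcases le_total ((A.filter (fun X => ¬ X ⊆ Y)).card : ℝ)
      (A.filter (fun X => ¬ X ⊆ Y')).card with h7 | h7
    · refine ⟨Y', Pmin_mem hY', ?_⟩
      have h8 : (1 - tau) * ((A.filter (fun X => ¬ X ⊆ Y)).card : ℝ) ≤
        (1 - tau) * (A.filter (fun X => ¬ X ⊆ Y')).card :=
        mul_le_mul_of_nonneg_left h7 (by linarith)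
      nlinarith
    · refine ⟨Y, hYP, ?_⟩
      nlinarith

end Pool.Agent.H4.UC.Sm
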