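import Pool.Agent.H4.UC.Main

/-!
# Subfamilies of a union-closed family
-/

open Finset Real
open scoped FinsetFamily

namespace Pool.Agent.H4.UC

variable {α : Type*} [DecidableEq α]

/-- the number `1 - 0.38288` -/
noncomputable def tau : ℝ := 61712 / 100000

lemma lt_tau : (0.6 : ℝ) < tau := by unfold tau; norm_num

lemma tau_lt : tau < (0.62 : ℝ) := by unfold tau; norm_num

/-- If every point of the universe of the union-closed family `A` is missed by at least `q |I|`
members of the nonempty subfamily `I`, then `q log |I| ≤ 0.61712 log |A|`. -/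
theorem sub_bound {A I : Finset (Finset α)} {q : ℝ} (hA : ∀ X ∈ A, ∀ Y ∈ A, X ∪ Y ∈ A)
    (hIA : I ⊆ A) (hI : I.Nonempty)
    (hq : ∀ x ∈ A.sup id, q * I.card ≤ ((I.filter (fun X => x ∉ X)).card : ℝ)) :
    q * log I.card ≤ tau * log A.card := by
  set l := (A.sup id).toList with hl
  have hIpos : (0 : ℝ) < I.card := by exact_mod_cast hI.card_pos
  have hag : Agree l I := by
    intro X hX Y hY x hx
    rw [hl, Finset.mem_toList] at hx
    have h1 : x ∉ X := fun h => hx (Finset.mem_sup.2 ⟨X, hIA hX, h⟩)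
    have h2 : x ∉ Y := fun h => hx (Finset.mem_sup.2 ⟨Y, hIA hY, h⟩)
    exact iff_of_false h1 h2
  have hsub : I ⊻ I ⊆ A := by
    intro Z hZ
    rw [Finset.mem_sups] at hZ
    obtain ⟨X, hX, Y, hY, rfl⟩ := hZ
    exact hA X (hIA hX) Y (hIA hY)
  have hL : (0 : ℝ) ≤ log A.card := log_natCast_nonneg _
  have hup : ∀ k', 0 ≤ k' → k' ≤ 1 →
      R k' (fun p q => binEntropy (cop k' p q)) l I I ≤ log A.card := by
    intro k' h0 h1
    refine (R_le_log h0 h1 l I I hI hI).trans ?_
    apply log_le_log
    · exact_mod_cast (hI.sups hI).card_pos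
    · exact_mod_cast Finset.card_le_card hsub
  have hk : (0 : ℝ) ≤ 1 / 2 := by norm_num
  have hk1 : (1 / 2 : ℝ) ≤ 1 := by norm_num
  have h1 : R (1 / 2) D0 l I I ≤ (1 - 2 * (38288 / 100000)) * log A.card := by
    refine (R_mono hk hk1 (fun x y h0 h1 h2 h3 => main_ineq h0 h1 h2 h3) l I I).trans ?_
    rw [R_smul]
    exact mul_le_mul_of_nonneg_left (hup _ hk hk1) (by norm_num)
  have h2 : R 0 D0 l I I ≤ (1 - 2 * (38288 / 100000)) * log A.card := (psd_R psd_D0 hk l I).trans h1
  have h3 := hup 0 le_rfl zero_le_one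
  have e : (fun p q : ℝ => binEntropy (cop 0 p q)) =
      fun p q => (p * binEntropy q + q * binEntropy p) - D0 p q := by
    funext p q
    unfold D0 cop
    have : p * q * (1 + 0 * (1 - p) * (1 - q)) = p * q := by ring
    rw [this]; ring
  rw [e, R_sub, R_add] at h3
  have h4 := R_zero_left l I I
  have h5 : R 0 (fun p q : ℝ => q * binEntropy p) l I I = W l (fun y => pr y I) I := by
    rw [← h4]
    exact R_swap 0 (fun p q => p * binEntropy q) l I I
  rw [h4, h5] at h3
  have h6 : q * log I.card ≤ W l (fun y => pr y I) I := by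
    rw [← chain l I hI hag]
    apply W_ge
    intro x hx
    rw [hl, Finset.mem_toList] at hx
    have := hq x hx
    unfold pr
    rw [le_div_iff₀ hIpos]
    exact this
  unfold tau
  linarith

end Pool.Agent.H4.UC
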